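import Pool.Agent.Lib.MP_1a91b9_nuX.TC.Frb
import Pool.Agent.Lib.MP_1a91b9_nuX.TG.SubU

/-!
# Descent with a character from `N F₀` to `N`
-/

set_option autoImplicit false

namespace Pool.Agent.Lib.MP_1a91b9_nuX.TC

variable [Pool.Agent.Lib.MP_1a91b9_nuT.CD]

open NumberField IsDedekindDomain WeierstrassCurve Module Pool.Agent.Lib.MP_1a91b9_nuT
open Pool.Agent.Lib.MP_1a91b9_nuX.DB Pool.Agent.Lib.MP_1a91b9_nuX.DX
open Pool.Agent.Lib.MP_1a91b9_nt (nrm nrm_eq)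
open Pool.Agent.Lib.MP_1a91b9_nuX.TG
open Pool.Agent.Lib.MP_1a91b9_nuX.AN
open Pool.Agent.Lib.MP_1a91b9_nuT.CF (IsFr exists_over exists_fr)
open Pool.Agent.Lib.MP_1a91b9_nuT.TG (exists_comp)
open Pool.Agent.Lib.MP_1a91b9_nuT.S4 (indC)

universe u

/-- `c` is the ray class character modulo `m` attached to the character `θ` of `Gal(F/N)`. -/
structure ChD {N F : Type u} [Field N] [NumberField N] [Field F] [NumberField F] [Algebra N F]
    (m : Ideal (𝓞 N)) (θ : Gal(F/N) →* ℂˣ) (c : Ideal (𝓞 N) → ℂ) : Prop where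
  rc : RC m c
  unr : ∀ v : HeightOneSpectrum (𝓞 N), ¬ m ≤ v.asIdeal → ¬ MP_1a91b9_nuG.Ram F v
  fr : ∀ v : HeightOneSpectrum (𝓞 N), ¬ m ≤ v.asIdeal → ∀ (w : HeightOneSpectrum (𝓞 F))
    (σ : Gal(F/N)), w.under (𝓞 N) = v → IsFr v w σ → c v.asIdeal = ((θ σ : ℂˣ) : ℂ)

variable [HC]

/-- the extension `N F₀ / N` is abelian -/
theorem galois_sub {μ : 𝓞 K} (N F F₀ L' : Type) [Field N] [NumberField N] [Algebra K N] [Field F]
    [NumberField F] [Algebra K F] [Field F₀] [NumberField F₀] [Algebra K F₀] [Field L']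
    [NumberField L'] [Algebra K L'] [Algebra N F] [Algebra F₀ F] [Algebra F₀ L']
    [IsScalarTower K N F] [IsScalarTower K F₀ F] [IsScalarTower K F₀ L'] [IsGalois K L']
    [DecidableEq L'] {T : Pt L'} (hT : AbT μ K T)
    (hgen : IntermediateField.adjoin N (Set.range (algebraMap F₀ F)) = ⊤) : IsGalois N F := by
  classical
  obtain ⟨L, _, _, _, _, _, _, t1, t2, t3, t4, hG, hL⟩ := exists_comp N F F₀ L' hgen
  exact exists_mid (F := F) (hT.up (N := N) hL)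

/-- **Descent with a character** from `F = N F₀` to `N`. -/
theorem exists_ch {μ : 𝓞 K} (N F F₀ L' : Type) [Field N] [NumberField N] [Algebra K N] [Field F]
    [NumberField F] [Algebra K F] [Field F₀] [NumberField F₀] [Algebra K F₀] [Field L']
    [NumberField L'] [Algebra K L'] [Algebra N F] [Algebra F₀ F] [Algebra F₀ L']
    [IsScalarTower K N F] [IsScalarTower K F₀ F] [IsScalarTower K F₀ L'] [IsGalois K L']
    [DecidableEq L'] {T : Pt L'} (hT : AbT μ K T)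
    (hgen : IntermediateField.adjoin N (Set.range (algebraMap F₀ F)) = ⊤) [IsGalois N F]
    {m : Ideal (𝓞 N)} (hm0 : m ≠ 0) (hm : m ≤ Ideal.span {MP_1a91b9_nuG.up (gB μ) N})
    (θ : Gal(F/N) →* ℂˣ) :
    ∃ c : Ideal (𝓞 N) → ℂ, ChD m θ c ∧ (LGood F → LGoodT N c) ∧
      ∀ ℓ : ℕ, ℓ.Prime → ¬ (ℓ : ℤ) ∣ CD.bad → IsCoprime m (Ideal.span {(ℓ : 𝓞 N)}) →
        ¬ ℓ ∣ 2 ^ finrank K F - 1 →
        (∀ q : HeightOneSpectrum (𝓞 K), (ℓ : 𝓞 K) ∈ q.asIdeal → ¬ MP_1a91b9_nuT3.Ram F q) →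
        (∀ w : HeightOneSpectrum (𝓞 F), m.map (algebraMap (𝓞 N) (𝓞 F)) ≤ w.asIdeal →
          MP_1a91b9_nuG.up HC.f F ∉ w.asIdeal → IsCoprime (psi F w.asIdeal - 1) (ℓ : 𝓞 K)) →
        UnitProp ℓ Om F → UnitT ℓ Om N c := by
  classical
  obtain ⟨L, _, _, _, _, _, _, t1, t2, t3, t4, hG, hL⟩ := exists_comp N F F₀ L' hgen
  have hT' := hT.up (N := N) hL
  obtain ⟨θL, hθL⟩ : ∃ θL : Gal(L/N) →* ℂˣ, ∀ σ, θL σ = θ (rs F σ) :=
    ⟨θ.comp (AlgEquiv.restrictNormalHom F), fun σ => rfl⟩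
  have htriv : ∀ σ : Gal(L/F), θL (toFH N F L σ) = 1 := by
    intro σ
    have h1 : rs F (toFH N F L σ) = 1 := rs_toF σ
    rw [hθL, h1, map_one]
  have hunr : ∀ v : HeightOneSpectrum (𝓞 N), ¬ m ≤ v.asIdeal → ¬ MP_1a91b9_nuG.Ram F v := by
    intro v hv h
    refine hv (hm.trans ?_)
    rw [Ideal.span_singleton_le_iff_mem]
    by_contra h1
    exact hT'.not_ram v h1 (MP_1a91b9_nuT3.S8.ram_up v h)
  refine ⟨cT N (DX.up L T) m θL, ⟨rc_cT θL hT' hm0 (ne_one_of_le hm) hm, hunr,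
    fun v hv w σ hw hσ => ?_⟩, fun h => ?_, fun ℓ hℓ hD hmq h3 hu ha h => ?_⟩
  · have hGF : IsGalois F L := IsGalois.tower_top_of_isGalois N F L
    obtain ⟨W, rfl⟩ := exists_over (k := F) (N := L) w
    obtain ⟨τ, hτ⟩ := exists_fr (k := N) W
    have hWv : W.under (𝓞 N) = v := by
      rw [← hw]
      exact HeightOneSpectrum.ext (Ideal.under_under _).symm
    rw [hWv] at hτ
    have hcop : IsCoprime v.asIdeal m := by
      by_contra h
      exact hv ((S4.le_iff_not_coprime m v).2 h)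
    have h1 := fr_sm hT' hm v hv W τ hWv hτ
    have h2 : rs F τ = σ := by
      have h3 := isFr_rs (F := F) hτ
      subst hw
      exact fr_unique (fun h => hunr _ hv ((MP_1a91b9_nuG.ram_eq _).2 h)) h3 hσ
    rw [cT_of hcop, art_eq hT' h1, hθL, h2]
  · refine lgoodT_abT μ _ N F L (DX.up L T) hT' m hm0 hm θL rfl ?_
    rw [cT_triv htriv]
    exact lgoodT_indC (map_ne_zero' hm0) h
  · refine unitT_abT μ hℓ hD _ N F L (DX.up L T) hT' m hm0 hm θL hmq rfl h3 hu ?_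
    rw [cT_triv htriv]
    have hmqM : IsCoprime (m.map (algebraMap (𝓞 N) (𝓞 F))) (Ideal.span {(ℓ : 𝓞 F)}) := by
      have h5 := hmq.map (Ideal.mapHom (algebraMap (𝓞 N) (𝓞 F)))
      rw [Ideal.mapHom_apply, Ideal.mapHom_apply, Ideal.map_span, Set.image_singleton,
        map_natCast] at h5
      exact h5
    exact unitT_indC (map_ne_zero' hm0) hℓ hmqM ha h

end Pool.Agent.Lib.MP_1a91b9_nuX.TC
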