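import Pool.Agent.Lib.MP_1a91b9_nuX.TC.Low

/-!
# The Frobenius element at an unramified place
-/

set_option autoImplicit false

namespace Pool.Agent.Lib.MP_1a91b9_nuX.TC

variable [Pool.Agent.Lib.MP_1a91b9_nuT.CD]

open NumberField IsDedekindDomain Module Pool.Agent.Lib.MP_1a91b9_nuT
open Pool.Agent.Lib.MP_1a91b9_nt (nrm nrm_eq)
open Pool.Agent.Lib.MP_1a91b9_nuX.DX
open Pool.Agent.Lib.MP_1a91b9_nuT.CF (IsFr exists_over exists_fr)

universe u

/-- the Frobenius element at an unramified place is unique -/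
theorem fr_unique {N F : Type u} [Field N] [NumberField N] [Field F] [NumberField F] [Algebra N F]
    [IsGalois N F] {w : HeightOneSpectrum (𝓞 F)} (hr : ¬ CF.Ram F (w.under (𝓞 N)))
    {σ τ : Gal(F/N)} (hσ : IsFr (w.under (𝓞 N)) w σ) (hτ : IsFr (w.under (𝓞 N)) w τ) : σ = τ := by
  have h1 : ∀ x : 𝓞 F, (σ⁻¹ * τ) • x - x ∈ w.asIdeal := by
    intro x
    obtain ⟨y, hy⟩ : ∃ y, y = (σ⁻¹ * τ) • x - x := ⟨_, rfl⟩
    have h2 : σ • y = τ • x - σ • x := by
      rw [hy, smul_sub, mul_smul, smul_inv_smul]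
    have h3 : σ • y ∈ w.asIdeal := by
      rw [h2]
      have h4 := w.asIdeal.sub_mem (hτ x) (hσ x)
      rwa [sub_sub_sub_cancel_right] at h4
    have h5 : y ^ nrm (w.under (𝓞 N)) ∈ w.asIdeal := by
      have h6 := w.asIdeal.sub_mem h3 (hσ y)
      rwa [sub_sub_cancel] at h6
    rw [← hy]
    exact w.isPrime.mem_of_pow_mem _ h5
  have h2 := CF.fix_of_triv (k := N) (L := F) w (σ⁻¹ * τ) hr h1
  have h3 : σ⁻¹ * τ = 1 := by
    apply AlgEquiv.ext
    intro x
    exact h2 x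
  rw [inv_mul_eq_one] at h3
  exact h3

/-- the restriction of a Frobenius element -/
theorem isFr_rs {N F L : Type u} [Field N] [NumberField N] [Field F] [NumberField F] [Field L]
    [NumberField L] [Algebra K N] [Algebra K F] [Algebra K L] [Algebra N F] [Algebra N L]
    [Algebra F L] [IsScalarTower K N F] [IsScalarTower K N L] [IsScalarTower K F L]
    [IsScalarTower N F L] [IsGalois N F] {v : HeightOneSpectrum (𝓞 N)}
    {W : HeightOneSpectrum (𝓞 L)} {σ : Gal(L/N)}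
    (h : IsFr v W σ) : IsFr v (W.under (𝓞 F)) (rs F σ) := by
  intro x
  have h1 := h (algebraMap (𝓞 F) (𝓞 L) x)
  have h2 : algebraMap (𝓞 F) (𝓞 L) (rs F σ • x) = σ • (algebraMap (𝓞 F) (𝓞 L) x) := by
    apply RingOfIntegers.ext
    exact rs_apply σ (x : F)
  change algebraMap (𝓞 F) (𝓞 L) (rs F σ • x - x ^ nrm v) ∈ W.asIdeal
  rw [map_sub, map_pow, h2]
  exact h1

end Pool.Agent.Lib.MP_1a91b9_nuX.TC
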