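import Pool.Agent.Lib.MP_1a91b9_nuX.TC.Coc
import Pool.Agent.Lib.MP_1a91b9_nuX.TC.Frb
import Pool.Agent.Lib.MP_1a91b9_nuX.PG.Frw

/-!
# The Hecke character of a form of the curve and the Hecke character of the curve
-/

set_option autoImplicit false

namespace Pool.Agent.Lib.MP_1a91b9_nuX.TC

open NumberField IsDedekindDomain WeierstrassCurve Pool.Agent.Lib.MP_1a91b9_nuT
open Pool.Agent.Lib.MP_1a91b9_nt (nrm nrm_eq)
open Pool.Agent.Lib.MP_1a91b9_nuX.DB Pool.Agent.Lib.MP_1a91b9_nuX.GL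

universe u

variable [CD] [DecidableEq Kb]

section
variable {N F : Type u} [Field N] [NumberField N] [Algebra K N] [Field F] [NumberField F]
  [Algebra K F] [Algebra N F] [IsScalarTower K N F] [Algebra N Kb] [Algebra F Kb]
  [IsScalarTower K N Kb] [IsScalarTower K F Kb] [IsScalarTower N F Kb] [IsGalois N F]
  {W : WeierstrassCurve N} {D₀ : VariableChange F}
  (hD : D₀.map (algebraMap F Kb) • EF Kb = W.map (algebraMap N Kb))
include hD

/-- the character of `Gal(F/N)` attached to a form of the curve which becomes isomorphic to the curve over `F` -/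
theorem exists_thF : ∃ θ : Gal(F/N) →* (𝓞 K)ˣ, ∀ (σ : Kb ≃ₐ[N] Kb) (φ : Pt Kb →+ Pt Kb),
    Trs (D₀.map (algebraMap F Kb)) σ φ → ∀ T : Pt Kb,
      φ T = sm Kb ((θ (AlgEquiv.restrictNormalHom F σ) : (𝓞 K)ˣ) : 𝓞 K) (ga σ T) := by
  obtain ⟨θ, hθ⟩ := exists_theta hD
  have hQ : Algebra.IsAlgebraic ℚ Kb := Algebra.IsAlgebraic.trans ℚ K Kb
  have hN : Algebra.IsAlgebraic N Kb := Algebra.IsAlgebraic.tower_top (K := ℚ) N
  have hac : IsAlgClosure N Kb := ⟨inferInstance, hN⟩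
  have hno : Normal N Kb := IsAlgClosure.normal N Kb
  have hs : Function.Surjective (AlgEquiv.restrictNormalHom F : (Kb ≃ₐ[N] Kb) →* Gal(F/N)) :=
    AlgEquiv.restrictNormalHom_surjective Kb
  have hker : (AlgEquiv.restrictNormalHom F : (Kb ≃ₐ[N] Kb) →* Gal(F/N)).ker ≤ θ.ker := by
    intro σ hσ
    rw [MonoidHom.mem_ker] at hσ ⊢
    have hfix : ∀ x : F, σ (algebraMap F Kb x) = algebraMap F Kb x := by
      intro x
      have h1 := AlgEquiv.restrictNormal_commutes σ F x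
      have h2 : σ.restrictNormal F = 1 := hσ
      rw [h2, AlgEquiv.one_apply] at h1
      exact h1.symm
    have h1 : Trs (D₀.map (algebraMap F Kb)) σ (ga σ) :=
      trs_fix (hfix _) (hfix _) (hfix _) (hfix _)
    apply Units.ext
    apply sm_faithful
    intro S
    obtain ⟨T, rfl⟩ : ∃ T, ga σ T = S := ⟨ga σ⁻¹ S, by rw [← gk_mul, mul_inv_cancel, gk_one]⟩
    rw [← hθ σ (ga σ) h1 T, Units.val_one, sm_one]
  refine ⟨(MonoidHom.liftOfSurjective _ hs) ⟨θ, hker⟩, fun σ φ hφ T => ?_⟩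
  rw [MonoidHom.liftOfRightInverse_comp_apply]
  exact hθ σ φ hφ T

variable [HC]

/-- **Comparison of the characters.** -/
theorem twist_psi {θ : Gal(F/N) →* (𝓞 K)ˣ} (hθ : ∀ (σ : Kb ≃ₐ[N] Kb) (φ : Pt Kb →+ Pt Kb),
    Trs (D₀.map (algebraMap F Kb)) σ φ → ∀ T : Pt Kb,
      φ T = sm Kb ((θ (AlgEquiv.restrictNormalHom F σ) : (𝓞 K)ˣ) : 𝓞 K) (ga σ T))
    {w : HeightOneSpectrum (𝓞 F)} (hf : HC.f ∉ ((w.under (𝓞 N)).under (𝓞 K)).asIdeal)
    (hr : ¬ CF.Ram F (w.under (𝓞 N))) {σ : Gal(F/N)} (hσ : CF.IsFr (w.under (𝓞 N)) w σ)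
    {ψ : 𝓞 K} (hψ : PG.FrV (D₀.map (algebraMap F Kb)) (w.under (𝓞 N)) ψ) :
    ψ = ((θ σ : (𝓞 K)ˣ) : 𝓞 K) * psi N (w.under (𝓞 N)).asIdeal := by
  have hQ : Algebra.IsAlgebraic ℚ Kb := Algebra.IsAlgebraic.trans ℚ K Kb
  have hN : Algebra.IsAlgebraic N Kb := Algebra.IsAlgebraic.tower_top (K := ℚ) N
  obtain ⟨V, hV⟩ := exists_abv (Ω := Kb) w
  have hVv : Abv (w.under (𝓞 N)) V := abv_res hV
  obtain ⟨τ, hτ⟩ := exists_fr hVv
  obtain ⟨φ, hφ⟩ := exists_phi hD τ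
  -- the restriction is the Frobenius element
  have h1 : CF.IsFr (w.under (𝓞 N)) w (AlgEquiv.restrictNormalHom F τ) := by
    intro x
    rw [← w.valuation_lt_one_iff_mem (K := F), ← abv_lt hV]
    have h2 : V.valuation (algebraMap F Kb (x : F)) ≤ 1 := by
      rw [hV]
      exact w.valuation_le_one x
    have h3 := hτ _ h2
    have h4 : algebraMap F Kb (algebraMap (𝓞 F) F
        ((AlgEquiv.restrictNormalHom F τ) • x - x ^ nrm (w.under (𝓞 N)))) =
        τ (algebraMap F Kb (x : F)) - algebraMap F Kb (x : F) ^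
          Ideal.absNorm (w.under (𝓞 N)).asIdeal := by
      rw [map_sub, map_sub, map_pow, map_pow, nrm_eq]
      congr 1
      exact AlgEquiv.restrictNormal_commutes τ F (x : F)
    rw [h4]
    exact h3
  have h2 := fr_unique hr h1 hσ
  -- the actions on the torsion
  have h3 : ∀ T : Pt Kb, Tr V.valuation T →
      sm Kb ψ T = sm Kb (((θ σ : (𝓞 K)ˣ) : 𝓞 K) * psi N (w.under (𝓞 N)).asIdeal) T := by
    intro T hT
    have hTa : Ta V.valuation T := tr_ta hT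
    rw [← hψ V hVv τ hτ φ hφ T hTa, hθ τ φ hφ T, h2, sm_mul]
    congr 1
    exact PG.frv_psi hf V hVv τ hτ (ga τ) (trs_fix (D := 1) (by
      rw [show ((1 : VariableChange Kb).u : Kb) = 1 from rfl, map_one]) (map_zero τ)
      (map_zero τ) (map_zero τ)) T hTa
  exact eq_of_tr (abv_res (k := K) hVv) h3

end

end Pool.Agent.Lib.MP_1a91b9_nuX.TC
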