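import Pool.Agent.Lib.MP_1a91b9_nuX.TC.Art

/-!
# Descent with a character in the extensions generated by torsion points
-/

set_option autoImplicit false

namespace Pool.Agent.Lib.MP_1a91b9_nuX.TC

variable [Pool.Agent.Lib.MP_1a91b9_nuT.CD]

open NumberField IsDedekindDomain WeierstrassCurve Module Pool.Agent.Lib.MP_1a91b9_nuT
open Pool.Agent.Lib.MP_1a91b9_nuX.DB Pool.Agent.Lib.MP_1a91b9_nuX.DX
open Pool.Agent.Lib.MP_1a91b9_nuX.TG
open Pool.Agent.Lib.MP_1a91b9_nuX.AN
open Pool.Agent.Lib.MP_1a91b9_nuT.TG (not_ram_down)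

universe u

variable [HC]

/-- a modulus divisible by the bad number is not trivial -/
theorem ne_one_of_le {μ : 𝓞 K} {N : Type u} [Field N] [NumberField N] [Algebra K N]
    {m : Ideal (𝓞 N)} (hm : m ≤ Ideal.span {MP_1a91b9_nuG.up (gB μ) N}) : m ≠ 1 := by
  intro h1
  rw [h1, Ideal.one_eq_top, top_le_iff, Ideal.span_singleton_eq_top] at hm
  apply up_span_ne_top (F := N)
  rw [Ideal.one_eq_top, Ideal.span_singleton_eq_top]
  exact isUnit_of_dvd_unit (map_dvd (algebraMap (𝓞 K) (𝓞 N)) (f_dvd_gB μ)) hm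

theorem le_f_of_le {μ : 𝓞 K} {N : Type u} [Field N] [NumberField N] [Algebra K N]
    {m : Ideal (𝓞 N)} (hm : m ≤ Ideal.span {MP_1a91b9_nuG.up (gB μ) N}) :
    m ≤ Ideal.span {MP_1a91b9_nuG.up HC.f N} := by
  refine hm.trans ?_
  rw [Ideal.span_singleton_le_span_singleton]
  exact map_dvd (algebraMap (𝓞 K) (𝓞 N)) (f_dvd_gB μ)

theorem map_ne_zero' {N M : Type u} [Field N] [NumberField N] [Field M] [NumberField M]
    [Algebra N M] {m : Ideal (𝓞 N)} (hm0 : m ≠ 0) : m.map (algebraMap (𝓞 N) (𝓞 M)) ≠ 0 := by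
  rw [Ne, Ideal.zero_eq_bot, Ideal.map_eq_bot_iff_of_injective
    (FaithfulSMul.algebraMap_injective _ _)]
  exact hm0

theorem map_le_up {μ : 𝓞 K} {N M : Type u} [Field N] [NumberField N] [Algebra K N] [Field M]
    [NumberField M] [Algebra K M] [Algebra N M] [IsScalarTower K N M] {m : Ideal (𝓞 N)}
    (hm : m ≤ Ideal.span {MP_1a91b9_nuG.up (gB μ) N}) :
    m.map (algebraMap (𝓞 N) (𝓞 M)) ≤ Ideal.span {MP_1a91b9_nuG.up (gB μ) M} := by
  refine (Ideal.map_mono hm).trans ?_
  rw [Ideal.map_span, Set.image_singleton]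
  have h : algebraMap (𝓞 N) (𝓞 M) (MP_1a91b9_nuG.up (gB μ) N) =
      MP_1a91b9_nuG.up (gB μ) M := MP_1a91b9_nuT3.S8.algebraMap_tower (F := N) (F' := M) (gB μ)
  rw [h]

section
variable {μ : 𝓞 K} {N N₁ L : Type u} [Field N] [NumberField N] [Algebra K N] [Field N₁]
  [NumberField N₁] [Algebra K N₁] [Field L] [NumberField L] [Algebra K L] [Algebra N N₁]
  [Algebra N L] [Algebra N₁ L] [IsScalarTower K N N₁] [IsScalarTower K N L]
  [IsScalarTower K N₁ L] [IsScalarTower N N₁ L] [DecidableEq L]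
  {T : Pt L} [IsGalois N N₁] [IsGalois N L]

theorem exists_ray (hT : AbT μ N T) {m : Ideal (𝓞 N)}
    (hm : m ≤ Ideal.span {MP_1a91b9_nuG.up (gB μ) N}) {p : ℕ} (hp : p.Prime)
    (hd : finrank N N₁ = p) :
    ∃ (_ : Fact p.Prime) (x : HeightOneSpectrum (𝓞 N) → ZMod p),
      Pool.Agent.Lib.MP_1a91b9_nuT.TG.RayData p N₁ m x := by
  have hfp : Fact p.Prime := ⟨hp⟩
  have hram : ∀ v : HeightOneSpectrum (𝓞 N), MP_1a91b9_nuG.Ram N₁ v → m ≤ v.asIdeal := by
    intro v hv
    refine hm.trans ?_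
    rw [Ideal.span_singleton_le_iff_mem]
    by_contra h1
    exact hT.not_ram v h1 (MP_1a91b9_nuT3.S8.ram_up v hv)
  exact ⟨hfp, hT.exists_rayData (N₁ := N₁) hm hd (ne_one_of_le hm) hram⟩

/-- descent with a character in a step of prime degree -/
theorem lgoodT_step (hT : AbT μ N T) {m : Ideal (𝓞 N)} (hm0 : m ≠ 0)
    (hm : m ≤ Ideal.span {MP_1a91b9_nuG.up (gB μ) N}) {p : ℕ} (hp : p.Prime)
    (hd : finrank N N₁ = p) (θ : Gal(L/N) →* ℂˣ)
    (h : LGoodT N₁ (cT N₁ T (m.map (algebraMap (𝓞 N) (𝓞 N₁))) (θ.comp (toFH N N₁ L)))) :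
    LGoodT N (cT N T m θ) := by
  have hGM : IsGalois N₁ L := IsGalois.tower_top_of_isGalois N N₁ L
  obtain ⟨hfp, x, hx⟩ := exists_ray (N₁ := N₁) hT hm hp hd
  obtain ⟨q, hq, hq3, hmq, hV⟩ := exists_valueProp N m hm0
  exact lgoodT_desc hd hm0 (ne_one_of_le hm) (le_f_of_le hm) hx hq.ne_zero hmq hV
    (rc_cT θ hT hm0 (ne_one_of_le hm) hm)
    (rc_cT _ hT.mid (map_ne_zero' hm0) (ne_one_of_le (map_le_up hm)) (map_le_up hm))
    (cT_up hT hm θ) h

/-- descent of the unit property with a character in a step of prime degree -/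
theorem unitT_step (hT : AbT μ N T) {m : Ideal (𝓞 N)} (hm0 : m ≠ 0)
    (hm : m ≤ Ideal.span {MP_1a91b9_nuG.up (gB μ) N}) {p : ℕ} (hp : p.Prime)
    (hd : finrank N N₁ = p) (θ : Gal(L/N) →* ℂˣ) {ℓ : ℕ} (hℓ : ℓ.Prime)
    (hD : ¬ (ℓ : ℤ) ∣ CD.bad) (hmq : IsCoprime m (Ideal.span {(ℓ : 𝓞 N)}))
    (h3 : ¬ ℓ ∣ 2 ^ finrank K N - 1)
    (hu : ∀ q : HeightOneSpectrum (𝓞 K), (ℓ : 𝓞 K) ∈ q.asIdeal → ¬ MP_1a91b9_nuT3.Ram N q)
    (h : UnitT ℓ Om N₁ (cT N₁ T (m.map (algebraMap (𝓞 N) (𝓞 N₁))) (θ.comp (toFH N N₁ L)))) :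
    UnitT ℓ Om N (cT N T m θ) := by
  have hGM : IsGalois N₁ L := IsGalois.tower_top_of_isGalois N N₁ L
  obtain ⟨hfp, x, hx⟩ := exists_ray (N₁ := N₁) hT hm hp hd
  exact unitT_desc hd hm0 (ne_one_of_le hm) (le_f_of_le hm) hx hℓ.ne_zero hmq
    (valueProp_unr hℓ hD N h3 hu)
    (rc_cT θ hT hm0 (ne_one_of_le hm) hm)
    (rc_cT _ hT.mid (map_ne_zero' hm0) (ne_one_of_le (map_le_up hm)) (map_le_up hm))
    (cT_up hT hm θ) h

end

/-- the data of the intermediate field in the induction -/
theorem exists_mid {N F L : Type u} [Field N] [NumberField N] [Algebra K N]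
    [Field F] [NumberField F] [Algebra K F] [Field L] [NumberField L] [Algebra K L]
    [Algebra N F] [Algebra N L] [Algebra F L] [IsScalarTower K N F] [IsScalarTower K N L]
    [IsScalarTower K F L] [IsScalarTower N F L] [DecidableEq L] [IsGalois N L] {μ : 𝓞 K}
    {T : Pt L} (hT : AbT μ N T) : IsGalois N F := by
  have hfd : FiniteDimensional N L := Module.Finite.of_restrictScalars_finite ℚ N L
  let f : F →ₐ[N] L := IsScalarTower.toAlgHom N F L
  let e : F ≃ₐ[N] f.fieldRange := AlgEquiv.ofInjectiveField f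
  have hn : f.fieldRange.fixingSubgroup.Normal := ⟨fun σ hσ τ => by
    rw [hT.comm τ σ, mul_inv_cancel_right]
    exact hσ⟩
  have h1 : IsGalois N (IntermediateField.fixedField f.fieldRange.fixingSubgroup) :=
    IsGalois.of_fixedField_normal_subgroup _
  rw [IsGalois.fixedField_fixingSubgroup] at h1
  exact IsGalois.of_algEquiv e.symm

/-- **Descent with a character** in the extensions generated by torsion points. -/
theorem lgoodT_abT (μ : 𝓞 K) (d : ℕ) : ∀ (N F L : Type u) [Field N] [NumberField N] [Algebra K N]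
    [Field F] [NumberField F] [Algebra K F] [Field L] [NumberField L] [Algebra K L]
    [Algebra N F] [Algebra N L] [Algebra F L] [IsScalarTower K N F] [IsScalarTower K N L]
    [IsScalarTower K F L] [IsScalarTower N F L] [DecidableEq L] [IsGalois N L] (T : Pt L)
    (_ : AbT μ N T) (m : Ideal (𝓞 N)) (_ : m ≠ 0)
    (_ : m ≤ Ideal.span {MP_1a91b9_nuG.up (gB μ) N}) (θ : Gal(L/N) →* ℂˣ), finrank N F = d →
    LGoodT F (cT F T (m.map (algebraMap (𝓞 N) (𝓞 F))) (θ.comp (toFH N F L))) →
    LGoodT N (cT N T m θ) := by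
  induction d using Nat.strong_induction_on with
  | _ d ih =>
    intro N F L _ _ _ _ _ _ _ _ _ _ _ _ _ _ _ _ _ _ T hT m hm0 hm θ hd hF
    have hfd : FiniteDimensional N L := Module.Finite.of_restrictScalars_finite ℚ N L
    have hfd' : FiniteDimensional N F := Module.Finite.of_restrictScalars_finite ℚ N F
    have hG : IsGalois N F := exists_mid (F := F) hT
    have hGF : IsGalois F L := IsGalois.tower_top_of_isGalois N F L
    by_cases hd1 : d = 1
    · exact lgoodT_one (by rw [hd, hd1]) (rc_cT θ hT hm0 (ne_one_of_le hm) hm)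
        (rc_cT _ hT.mid (map_ne_zero' hm0) (ne_one_of_le (map_le_up hm)) (map_le_up hm))
        (cT_up hT hm θ) hF
    · obtain ⟨p, hp, hpd⟩ := Nat.exists_prime_and_dvd hd1
      have hfp : Fact p.Prime := ⟨hp⟩
      have hcardG : Nat.card Gal(F/N) = d := by rw [IsGalois.card_aut_eq_finrank, hd]
      obtain ⟨σ, hσ⟩ := exists_prime_orderOf_dvd_card' (G := Gal(F/N)) p (by rw [hcardG]; exact hpd)
      obtain ⟨M, hM⟩ : ∃ M : IntermediateField N F,
          M = IntermediateField.fixedField (Subgroup.zpowers σ) := ⟨_, rfl⟩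
      have hpM : finrank M F = p := by
        rw [hM, IntermediateField.finrank_fixedField_eq_card, Nat.card_zpowers, hσ]
      have hmul : finrank N M * p = d := by
        rw [← hpM, Module.finrank_mul_finrank, hd]
      have hpos : 0 < finrank N M := finrank_pos
      have hlt : finrank N M < d := by
        rw [← hmul]
        exact lt_mul_of_one_lt_right hpos hp.one_lt
      have t1 : IsScalarTower M F L := inferInstance
      have t2 : IsScalarTower N M L := IsScalarTower.of_algebraMap_eq fun x => by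
        rw [IsScalarTower.algebraMap_apply N F L]
        rfl
      have t3 : IsScalarTower K M F := IsScalarTower.of_algebraMap_eq fun x => rfl
      have t4 : IsScalarTower K M L := IsScalarTower.of_algebraMap_eq fun x => by
        rw [IsScalarTower.algebraMap_apply K F L]
        rfl
      have t5 : IsScalarTower K N M := IsScalarTower.of_algebraMap_eq fun x => by
        apply (algebraMap M F).injective
        rw [← IsScalarTower.algebraMap_apply K M F, ← IsScalarTower.algebraMap_apply N M F,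
          ← IsScalarTower.algebraMap_apply K N F]
      have g1 : IsGalois M F := IsGalois.tower_top_of_isGalois N M F
      have g2 : IsGalois M L := IsGalois.tower_top_of_isGalois N M L
      have hT' : AbT μ M T := hT.mid
      have e1 : (m.map (algebraMap (𝓞 N) (𝓞 M))).map (algebraMap (𝓞 M) (𝓞 F)) =
          m.map (algebraMap (𝓞 N) (𝓞 F)) := (MP_1a91b9_nuT3.S8.map_tower m).symm
      have e2 : (θ.comp (toFH N M L)).comp (toFH M F L) = θ.comp (toFH N F L) := rfl
      have hMg : LGoodT M (cT M T (m.map (algebraMap (𝓞 N) (𝓞 M))) (θ.comp (toFH N M L))) := by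
        refine lgoodT_step (N₁ := F) hT' (map_ne_zero' hm0) (map_le_up hm) hp hpM _ ?_
        rw [e1, e2]
        exact hF
      exact ih (finrank N M) hlt N M L T hT m hm0 hm θ rfl hMg

/-- **Descent of the unit property with a character** in the extensions generated by torsion points. -/
theorem unitT_abT (μ : 𝓞 K) {ℓ : ℕ} (hℓ : ℓ.Prime) (hD : ¬ (ℓ : ℤ) ∣ CD.bad) (d : ℕ) :
    ∀ (N F L : Type u) [Field N] [NumberField N] [Algebra K N]
    [Field F] [NumberField F] [Algebra K F] [Field L] [NumberField L] [Algebra K L]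
    [Algebra N F] [Algebra N L] [Algebra F L] [IsScalarTower K N F] [IsScalarTower K N L]
    [IsScalarTower K F L] [IsScalarTower N F L] [DecidableEq L] [IsGalois N L] (T : Pt L)
    (_ : AbT μ N T) (m : Ideal (𝓞 N)) (_ : m ≠ 0)
    (_ : m ≤ Ideal.span {MP_1a91b9_nuG.up (gB μ) N}) (θ : Gal(L/N) →* ℂˣ)
    (_ : IsCoprime m (Ideal.span {(ℓ : 𝓞 N)})), finrank N F = d →
    ¬ ℓ ∣ 2 ^ finrank K F - 1 →
    (∀ q : HeightOneSpectrum (𝓞 K), (ℓ : 𝓞 K) ∈ q.asIdeal → ¬ MP_1a91b9_nuT3.Ram F q) →
    UnitT ℓ Om F (cT F T (m.map (algebraMap (𝓞 N) (𝓞 F))) (θ.comp (toFH N F L))) →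
    UnitT ℓ Om N (cT N T m θ) := by
  induction d using Nat.strong_induction_on with
  | _ d ih =>
    intro N F L _ _ _ _ _ _ _ _ _ _ _ _ _ _ _ _ _ _ T hT m hm0 hm θ hmq hd h3 hu hF
    have hfd : FiniteDimensional N L := Module.Finite.of_restrictScalars_finite ℚ N L
    have hfd' : FiniteDimensional N F := Module.Finite.of_restrictScalars_finite ℚ N F
    have hG : IsGalois N F := exists_mid (F := F) hT
    have hGF : IsGalois F L := IsGalois.tower_top_of_isGalois N F L
    by_cases hd1 : d = 1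
    · exact unitT_one (by rw [hd, hd1]) (rc_cT θ hT hm0 (ne_one_of_le hm) hm)
        (rc_cT _ hT.mid (map_ne_zero' hm0) (ne_one_of_le (map_le_up hm)) (map_le_up hm))
        (cT_up hT hm θ) hF
    · obtain ⟨p, hp, hpd⟩ := Nat.exists_prime_and_dvd hd1
      have hfp : Fact p.Prime := ⟨hp⟩
      have hcardG : Nat.card Gal(F/N) = d := by rw [IsGalois.card_aut_eq_finrank, hd]
      obtain ⟨σ, hσ⟩ := exists_prime_orderOf_dvd_card' (G := Gal(F/N)) p (by rw [hcardG]; exact hpd)
      obtain ⟨M, hM⟩ : ∃ M : IntermediateField N F,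
          M = IntermediateField.fixedField (Subgroup.zpowers σ) := ⟨_, rfl⟩
      have hpM : finrank M F = p := by
        rw [hM, IntermediateField.finrank_fixedField_eq_card, Nat.card_zpowers, hσ]
      have hmul : finrank N M * p = d := by
        rw [← hpM, Module.finrank_mul_finrank, hd]
      have hpos : 0 < finrank N M := finrank_pos
      have hlt : finrank N M < d := by
        rw [← hmul]
        exact lt_mul_of_one_lt_right hpos hp.one_lt
      have t1 : IsScalarTower M F L := inferInstance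
      have t2 : IsScalarTower N M L := IsScalarTower.of_algebraMap_eq fun x => by
        rw [IsScalarTower.algebraMap_apply N F L]
        rfl
      have t3 : IsScalarTower K M F := IsScalarTower.of_algebraMap_eq fun x => rfl
      have t4 : IsScalarTower K M L := IsScalarTower.of_algebraMap_eq fun x => by
        rw [IsScalarTower.algebraMap_apply K F L]
        rfl
      have t5 : IsScalarTower K N M := IsScalarTower.of_algebraMap_eq fun x => by
        apply (algebraMap M F).injective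
        rw [← IsScalarTower.algebraMap_apply K M F, ← IsScalarTower.algebraMap_apply N M F,
          ← IsScalarTower.algebraMap_apply K N F]
      have g1 : IsGalois M F := IsGalois.tower_top_of_isGalois N M F
      have g2 : IsGalois M L := IsGalois.tower_top_of_isGalois N M L
      have hT' : AbT μ M T := hT.mid
      have h3M : ¬ ℓ ∣ 2 ^ finrank K M - 1 := e2_down h3
      have huM := not_ram_down (N := M) hu
      have e1 : (m.map (algebraMap (𝓞 N) (𝓞 M))).map (algebraMap (𝓞 M) (𝓞 F)) =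
          m.map (algebraMap (𝓞 N) (𝓞 F)) := (MP_1a91b9_nuT3.S8.map_tower m).symm
      have e2 : (θ.comp (toFH N M L)).comp (toFH M F L) = θ.comp (toFH N F L) := rfl
      have hmqM : IsCoprime (m.map (algebraMap (𝓞 N) (𝓞 M))) (Ideal.span {(ℓ : 𝓞 M)}) := by
        have h5 := hmq.map (Ideal.mapHom (algebraMap (𝓞 N) (𝓞 M)))
        rw [Ideal.mapHom_apply, Ideal.mapHom_apply, Ideal.map_span, Set.image_singleton,
          map_natCast] at h5
        exact h5
      have hMg : UnitT ℓ Om M (cT M T (m.map (algebraMap (𝓞 N) (𝓞 M)))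
          (θ.comp (toFH N M L))) := by
        refine unitT_step (N₁ := F) hT' (map_ne_zero' hm0) (map_le_up hm) hp hpM _ hℓ hD hmqM
          h3M huM ?_
        rw [e1, e2]
        exact hF
      exact ih (finrank N M) hlt N M L T hT m hm0 hm θ hmq rfl h3M huM hMg

end Pool.Agent.Lib.MP_1a91b9_nuX.TC
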