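import Pool.Agent.Lib.MP_1a91b9_nuX.LF.Cls

/-!
# Descent of an isomorphism with the curve of `CD` in an extension of degree prime to six
-/

set_option autoImplicit false

namespace Pool.Agent.Lib.MP_1a91b9_nuX.TC

open NumberField WeierstrassCurve Module Pool.Agent.Lib.MP_1a91b9_nuT
open Pool.Agent.Lib.MP_1a91b9_nuX.LF (crv exists_shortC exists_scale E_eq_crv)

/-- an element which is a `k`-th power in an extension of degree prime to `k` is a `k`-th power -/
theorem pow_down {N M : Type*} [Field N] [Field M] [Algebra N M] [FiniteDimensional N M] {k : ℕ}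
    (h : (finrank N M).Coprime k) {x : N} (hx : x ≠ 0) {u : M}
    (hu : u ^ k = algebraMap N M x) : ∃ y : N, y ≠ 0 ∧ x = y ^ k := by
  have h1 : Algebra.norm N u ^ k = x ^ finrank N M := by
    rw [← map_pow, hu, Algebra.norm_algebraMap]
  by_cases hk : k = 0
  · subst hk
    rw [pow_zero] at hu
    refine ⟨1, one_ne_zero, ?_⟩
    rw [pow_zero]
    apply (algebraMap N M).injective
    rw [map_one, hu]
  have hn : Algebra.norm N u ≠ 0 := by
    intro h0
    rw [h0, zero_pow hk] at h1
    exact pow_ne_zero _ hx h1.symm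
  obtain ⟨a, b, hab⟩ := Nat.isCoprime_iff_coprime.2 h
  refine ⟨Algebra.norm N u ^ a * x ^ b, mul_ne_zero (zpow_ne_zero _ hn) (zpow_ne_zero _ hx), ?_⟩
  have e1 : (Algebra.norm N u ^ a) ^ k = (x ^ finrank N M) ^ a := by
    rw [← h1, ← zpow_natCast, ← zpow_mul, ← zpow_natCast, ← zpow_mul, mul_comm]
  rw [mul_pow, e1, ← zpow_natCast x (finrank N M), ← zpow_mul, ← zpow_natCast (x ^ b) k,
    ← zpow_mul, ← zpow_add₀ hx, mul_comm _ a, hab, zpow_one]

variable [CD]

/-- **Descent of an isomorphism.** -/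
theorem class_down {F M : Type*} [Field F] [CharZero F] [Field M] [CharZero M] [Algebra F M]
    [FiniteDimensional F M] (h : (finrank F M).Coprime 6) (W : WeierstrassCurve F)
    (C : VariableChange M) (hC : C • (W.baseChange M) = E M) :
    ∃ D : VariableChange F, D • W = E F := by
  rw [E_eq_crv] at hC
  obtain ⟨a, b, u, D, hD, hu, ha, hb⟩ := exists_shortC W C hC
  have cAM : algebraMap F M (cA F) = cA M := map_intCast _ _
  have cBM : algebraMap F M (cB F) = cB M := map_intCast _ _
  have h2 : (finrank F M).Coprime 2 := h.coprime_dvd_right (by norm_num)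
  have h4 : (finrank F M).Coprime 4 := by
    have := h2.pow_right 2
    exact this
  suffices hs : ∃ y : F, y ≠ 0 ∧ a = y ^ 4 * cA F ∧ b = y ^ 6 * cB F by
    obtain ⟨y, hy, e1, e2⟩ := hs
    obtain ⟨D', hD'⟩ := exists_scale (cA F) (cB F) y hy
    refine ⟨D'⁻¹ * D, ?_⟩
    rw [mul_smul, hD, e1, e2, ← hD', inv_smul_smul, E_eq_crv]
  by_cases hB : CD.B = 0
  · have hA : CD.A ≠ 0 := by
      intro hA
      apply CD.disc
      rw [hA, hB]
      norm_num
    have hAF : cA F ≠ 0 := (Int.cast_ne_zero (α := F)).2 hA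
    have hAM : cA M ≠ 0 := (Int.cast_ne_zero (α := M)).2 hA
    have hBM : cB M = 0 := by
      change ((CD.B : ℤ) : M) = 0
      rw [hB, Int.cast_zero]
    have hBF : cB F = 0 := by
      change ((CD.B : ℤ) : F) = 0
      rw [hB, Int.cast_zero]
    have hb0 : b = 0 := by
      apply (algebraMap F M).injective
      rw [hb, hBM, mul_zero, map_zero]
    have ha0 : a ≠ 0 := by
      rintro rfl
      rw [map_zero] at ha
      exact mul_ne_zero (pow_ne_zero 4 hu) hAM ha.symm
    obtain ⟨y, hy, e⟩ := pow_down h4 (x := a / cA F) (div_ne_zero ha0 hAF) (u := u) (by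
      rw [map_div₀, ha, cAM, mul_div_assoc, div_self hAM, mul_one])
    refine ⟨y, hy, ?_, ?_⟩
    · rw [← e, div_mul_cancel₀ _ hAF]
    · rw [hb0, hBF, mul_zero]
  · have hBF : cB F ≠ 0 := (Int.cast_ne_zero (α := F)).2 hB
    have hBM : cB M ≠ 0 := (Int.cast_ne_zero (α := M)).2 hB
    have hb0 : b ≠ 0 := by
      rintro rfl
      rw [map_zero] at hb
      exact mul_ne_zero (pow_ne_zero 6 hu) hBM hb.symm
    by_cases hA : CD.A = 0
    · have hAM : cA M = 0 := by
        change ((CD.A : ℤ) : M) = 0
        rw [hA, Int.cast_zero]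
      have hAF : cA F = 0 := by
        change ((CD.A : ℤ) : F) = 0
        rw [hA, Int.cast_zero]
      have ha0 : a = 0 := by
        apply (algebraMap F M).injective
        rw [ha, hAM, mul_zero, map_zero]
      obtain ⟨y, hy, e⟩ := pow_down h (x := b / cB F) (div_ne_zero hb0 hBF) (u := u) (by
        rw [map_div₀, hb, cBM, mul_div_assoc, div_self hBM, mul_one])
      refine ⟨y, hy, ?_, ?_⟩
      · rw [ha0, hAF, mul_zero]
      · rw [← e, div_mul_cancel₀ _ hBF]
    · have hAF : cA F ≠ 0 := (Int.cast_ne_zero (α := F)).2 hA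
      have hAM : cA M ≠ 0 := (Int.cast_ne_zero (α := M)).2 hA
      have ha0 : a ≠ 0 := by
        rintro rfl
        rw [map_zero] at ha
        exact mul_ne_zero (pow_ne_zero 4 hu) hAM ha.symm
      obtain ⟨e, he⟩ : ∃ e : F, e = (b / cB F) / (a / cA F) := ⟨_, rfl⟩
      have he0 : e ≠ 0 := by
        rw [he]
        exact div_ne_zero (div_ne_zero hb0 hBF) (div_ne_zero ha0 hAF)
      have haM : algebraMap F M (a / cA F) = u ^ 4 := by
        rw [map_div₀, ha, cAM, mul_div_assoc, div_self hAM, mul_one]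
      have hbM : algebraMap F M (b / cB F) = u ^ 6 := by
        rw [map_div₀, hb, cBM, mul_div_assoc, div_self hBM, mul_one]
      have heM : u ^ 2 = algebraMap F M e := by
        rw [he, map_div₀, haM, hbM]
        field_simp
      obtain ⟨y, hy, e1⟩ := pow_down h2 he0 heM
      have hya : a / cA F = y ^ 4 := by
        apply (algebraMap F M).injective
        rw [haM, map_pow]
        have e2 : algebraMap F M y ^ 2 = u ^ 2 := by rw [← map_pow, ← e1, heM]
        calc u ^ 4 = (u ^ 2) ^ 2 := by ring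
          _ = (algebraMap F M y ^ 2) ^ 2 := by rw [e2]
          _ = _ := by ring
      have hyb : b / cB F = y ^ 6 := by
        apply (algebraMap F M).injective
        rw [hbM, map_pow]
        have e2 : algebraMap F M y ^ 2 = u ^ 2 := by rw [← map_pow, ← e1, heM]
        calc u ^ 6 = (u ^ 2) ^ 3 := by ring
          _ = (algebraMap F M y ^ 2) ^ 3 := by rw [e2]
          _ = _ := by ring
      refine ⟨y, hy, ?_, ?_⟩
      · rw [← hya, div_mul_cancel₀ _ hAF]
      · rw [← hyb, div_mul_cancel₀ _ hBF]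

end Pool.Agent.Lib.MP_1a91b9_nuX.TC
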