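import Pool.Agent.Lib.MP_1a91b9_nuX.TC.Uni
import Pool.Agent.Lib.MP_1a91b9_nuX.HD

/-!
# The cocycle of a form of the curve

`D • E = W` over the algebraic closure, `W` over a field `N` which contains `K`: an automorphism `σ` over `N` acts on the
points of `W`, transported to the curve `E`, as `θ(σ) σ` with a unit `θ(σ)` of `𝓞 K`.
-/

set_option autoImplicit false

namespace Pool.Agent.Lib.MP_1a91b9_nuX.TC

open NumberField IsDedekindDomain WeierstrassCurve Pool.Agent.Lib.MP_1a91b9_nuT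
open Pool.Agent.Lib.MP_1a91b9_nuX.DB Pool.Agent.Lib.MP_1a91b9_nuX.GL

universe u

variable [CD]

private theorem coc_EF : EF Kb = E Kb := by
  refine WeierstrassCurve.ext ?_ ?_ ?_ ?_ ?_
  · exact map_zero (algebraMap K Kb)
  · exact map_zero (algebraMap K Kb)
  · exact map_zero (algebraMap K Kb)
  · exact map_intCast (algebraMap K Kb) _
  · exact map_intCast (algebraMap K Kb) _

private theorem coc_map (f : Kb →+* Kb) : (EF Kb).map f = EF Kb := by
  rw [coc_EF]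
  refine WeierstrassCurve.ext ?_ ?_ ?_ ?_ ?_
  · exact map_zero f
  · exact map_zero f
  · exact map_zero f
  · exact map_intCast f _
  · exact map_intCast f _

/-- the elements of `𝓞 K` act faithfully -/
theorem sm_faithful [DecidableEq Kb] {a b : 𝓞 K} (h : ∀ T : Pt Kb, sm Kb a T = sm Kb b T) :
    a = b := by
  obtain ⟨I, hI, hle⟩ := Ideal.exists_le_maximal (Ideal.span {((3 : ℕ) : 𝓞 K)}) (by
    rw [Ne, Ideal.span_singleton_eq_top]
    exact nat_not_isUnit (le_refl 3))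
  have h3 : ((3 : ℕ) : 𝓞 K) ∈ I := hle (Ideal.mem_span_singleton_self _)
  have hb : I ≠ ⊥ := by
    rintro rfl
    exact (Nat.cast_ne_zero.2 (by norm_num) : ((3 : ℕ) : 𝓞 K) ≠ 0) ((Submodule.mem_bot _).1 h3)
  obtain ⟨V, hV⟩ := exists_abv (Ω := Kb) (⟨I, hI.isPrime, hb⟩ : HeightOneSpectrum (𝓞 K))
  exact eq_of_tr hV fun T _ => h T

variable [DecidableEq Kb]

/-- `φ` is the transport to the curve of `σ` acting on the coordinates `cx D`, `cy D` -/
def Trs (D : VariableChange Kb) (σ : Kb → Kb) (φ : Pt Kb →+ Pt Kb) : Prop :=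
  ∀ T : Pt Kb, T ≠ 0 → φ T ≠ 0 ∧ cx D (φ T) = σ (cx D T) ∧ cy D (φ T) = σ (cy D T)

omit [DecidableEq Kb] in
theorem cxy_inj {D : VariableChange Kb} {P Q : Pt Kb} (hP : P ≠ 0) (hQ : Q ≠ 0)
    (hx : cx D P = cx D Q) (hy : cy D P = cy D Q) : P = Q := by
  have hu : (D.u : Kb) ≠ 0 := D.u.ne_zero
  unfold cx at hx
  unfold cy at hy
  rw [div_left_inj' (pow_ne_zero 2 hu)] at hx
  rw [div_left_inj' (pow_ne_zero 3 hu)] at hy
  have h1 : xc P = xc Q := by linear_combination hx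
  refine pt_ext hP hQ h1 ?_
  rw [h1] at hy
  linear_combination hy

theorem trs_unique {D : VariableChange Kb} {σ : Kb → Kb} {φ φ' : Pt Kb →+ Pt Kb}
    (h : Trs D σ φ) (h' : Trs D σ φ') : φ = φ' := by
  refine AddMonoidHom.ext fun T => ?_
  by_cases hT : T = 0
  · rw [hT, map_zero, map_zero]
  · obtain ⟨a1, a2, a3⟩ := h T hT
    obtain ⟨b1, b2, b3⟩ := h' T hT
    exact cxy_inj a1 b1 (a2.trans b2.symm) (a3.trans b3.symm)

section
variable {N : Type u} [Field N] [NumberField N] [Algebra K N] [Algebra N Kb]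
  [IsScalarTower K N Kb] {W : WeierstrassCurve N} {D : VariableChange Kb}
  (hD : D • EF Kb = W.map (algebraMap N Kb))
include hD

/-- the action of an automorphism on a form of the curve -/
theorem trs_unit {σ : Kb ≃ₐ[N] Kb} {φ : Pt Kb →+ Pt Kb} (hφ : Trs D σ φ) :
    ∃ ε : (𝓞 K)ˣ, ∀ T : Pt Kb, φ T = sm Kb (ε : 𝓞 K) (ga σ T) := by
  obtain ⟨D', hD'⟩ : ∃ D' : VariableChange Kb, D' = D.map ((σ : Kb ≃+* Kb) : Kb →+* Kb) :=
    ⟨_, rfl⟩
  have h1 : D • EF Kb = D' • EF Kb := by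
    have e1 : D' • EF Kb = (D • EF Kb).map ((σ : Kb ≃+* Kb) : Kb →+* Kb) := by
      rw [hD']
      conv_lhs => rw [← coc_map ((σ : Kb ≃+* Kb) : Kb →+* Kb)]
      exact WeierstrassCurve.map_variableChange _ _ _
    rw [e1, hD, WeierstrassCurve.map_map]
    congr 1
    refine RingHom.ext fun x => ?_
    show algebraMap N Kb x = σ (algebraMap N Kb x)
    rw [σ.commutes]
  obtain ⟨ρ, hρ, hA, hB, hρ2⟩ := aut_short h1
  have hu : (D'.u : Kb) = σ (D.u : Kb) := by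
    rw [hD']
    rfl
  have hr : D'.r = σ D.r := by
    rw [hD']
    rfl
  have hs : D'.s = σ D.s := by
    rw [hD']
    rfl
  have ht : D'.t = σ D.t := by
    rw [hD']
    rfl
  obtain ⟨ε, -, hε⟩ := unit_Kb hρ hA hB
  refine ⟨ε, fun S => ?_⟩
  by_cases hS : S = 0
  · rw [hS, map_zero, map_zero, map_zero]
  obtain ⟨g1, g2, g3⟩ := hφ S hS
  have hne : ga σ S ≠ 0 := fun h => hS ((gk_ne σ).1 h)
  obtain ⟨k1, k2⟩ := hρ2 (ga σ S) (φ S) (by
      rw [g2, cx, cx, xc_gk, hu, hr, map_div₀, map_sub, map_pow]) (by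
      rw [g3, cy, cy, xc_gk, yc_gk, hu, hr, hs, ht, map_div₀, map_sub, map_sub, map_mul,
        map_sub, map_pow])
  exact hε _ _ hne g1 k1 k2

omit hD [NumberField N] in
/-- an automorphism which fixes the change of variables -/
theorem trs_fix {σ : Kb ≃ₐ[N] Kb} (hu : σ (D.u : Kb) = D.u) (hr : σ D.r = D.r)
    (hs : σ D.s = D.s) (ht : σ D.t = D.t) : Trs D σ (ga σ) := by
  intro T hT
  refine ⟨fun h => hT ((gk_ne σ).1 h), ?_, ?_⟩
  · rw [cx, cx, xc_gk, map_div₀, map_sub, map_pow, hu, hr]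
  · rw [cy, cy, xc_gk, yc_gk, map_div₀, map_sub, map_sub, map_mul, map_sub, map_pow, hu, hr, hs,
      ht]

/-- **The cocycle of the form.** -/
theorem exists_theta : ∃ θ : (Kb ≃ₐ[N] Kb) →* (𝓞 K)ˣ, ∀ (σ : Kb ≃ₐ[N] Kb)
    (φ : Pt Kb →+ Pt Kb), Trs D σ φ → ∀ T : Pt Kb, φ T = sm Kb ((θ σ : (𝓞 K)ˣ) : 𝓞 K) (ga σ T) := by
  choose φ hφ using fun σ : Kb ≃ₐ[N] Kb => exists_phi hD σ
  choose ε hε using fun σ : Kb ≃ₐ[N] Kb => trs_unit hD (hφ σ)
  have hsurj : ∀ (σ : Kb ≃ₐ[N] Kb) (S : Pt Kb), ∃ T, ga σ T = S := fun σ S =>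
    ⟨ga σ⁻¹ S, by rw [← gk_mul, mul_inv_cancel, gk_one]⟩
  have hmul : ∀ σ τ : Kb ≃ₐ[N] Kb, ε (σ * τ) = ε σ * ε τ := by
    intro σ τ
    apply Units.ext
    apply sm_faithful
    intro S
    obtain ⟨T, rfl⟩ := hsurj (σ * τ) S
    have h1 : Trs D (σ * τ : Kb ≃ₐ[N] Kb) ((φ σ).comp (φ τ)) := by
      intro T hT
      obtain ⟨a1, a2, a3⟩ := hφ τ T hT
      obtain ⟨b1, b2, b3⟩ := hφ σ _ a1
      exact ⟨b1, b2.trans (congrArg σ a2), b3.trans (congrArg σ a3)⟩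
    have h2 := trs_unique (hφ (σ * τ)) h1
    rw [← hε, h2, AddMonoidHom.comp_apply, hε σ, hε τ, gk_sm, Units.val_mul, sm_mul, gk_mul]
  have hone : ε 1 = 1 := by
    have h1 := hmul 1 1
    rw [mul_one] at h1
    exact (left_eq_mul.1 h1)
  refine ⟨⟨⟨ε, hone⟩, hmul⟩, fun σ ψ hψ T => ?_⟩
  rw [trs_unique hψ (hφ σ)]
  exact hε σ T

end

end Pool.Agent.Lib.MP_1a91b9_nuX.TC
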