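import Pool.Agent.Lib.MP_1a91b9_nuX.TG.Unr

/-!
# Descent with a character: definitions

`RC m c`: `c` is a completely multiplicative ray class function modulo `m`. `LGoodT F c`, `UnitT q Ω F c`: the series of
`ψbar_F c` continues and does not vanish at `1` (its normalised value at `1` is a unit above `q`).
-/

set_option autoImplicit false

namespace Pool.Agent.Lib.MP_1a91b9_nuX.TC

variable [Pool.Agent.Lib.MP_1a91b9_nuT.CD]

open NumberField IsDedekindDomain Pool.Agent.Lib.MP_1a91b9_nt Pool.Agent.Lib.MP_1a91b9_nuT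
open Pool.Agent.Lib.MP_1a91b9_nuT.S4 (Over Lf hasProd_Lf hasProd_over indC indC_of indC_of_not
  indC_one indC_mul norm_indC_le indC_ray entire_eq le_iff_not_coprime differentiable_euler RayEq)
open Pool.Agent.Lib.MP_1a91b9_nuG (up)
open Pool.Agent.Lib.MP_1a91b9_nuX.AN

universe u

/-- a completely multiplicative ray class function modulo `m` -/
structure RC {F : Type*} [Field F] [NumberField F] (m : Ideal (𝓞 F)) (c : Ideal (𝓞 F) → ℂ) :
    Prop where
  one : c 1 = 1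
  mul : ∀ I J : Ideal (𝓞 F), c (I * J) = c I * c J
  le : ∀ I : Ideal (𝓞 F), ‖c I‖ ≤ 1
  int : ∀ I : Ideal (𝓞 F), IsIntegral ℤ (c I)
  out : ∀ I : Ideal (𝓞 F), ¬ IsCoprime I m → c I = 0
  ray : ∀ I J : Ideal (𝓞 F), RayEq m I J → c I = c J

theorem RC.place {F : Type*} [Field F] [NumberField F] {m : Ideal (𝓞 F)}
    {c : Ideal (𝓞 F) → ℂ} (h : RC m c) (v : HeightOneSpectrum (𝓞 F)) (hv : m ≤ v.asIdeal) :
    c v.asIdeal = 0 :=
  h.out _ ((le_iff_not_coprime m v).mp hv)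

/-- the trivial character -/
theorem rc_indC {F : Type*} [Field F] [NumberField F] (m : Ideal (𝓞 F)) : RC m (indC m) := by
  refine ⟨indC_one m, indC_mul m, norm_indC_le m, fun I => ?_, fun I hI => indC_of_not hI,
    indC_ray m⟩
  by_cases hI : IsCoprime I m
  · rw [indC_of hI]
    exact isIntegral_one
  · rw [indC_of_not hI]
    exact isIntegral_zero

variable [HC]

/-- the series of `ψbar_F c` continues and does not vanish at `1` -/
def LGoodT (F : Type u) [Field F] [NumberField F] [Algebra K F] (c : Ideal (𝓞 F) → ℂ) : Prop :=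
  ∃ L : ℂ → ℂ, Differentiable ℂ L ∧
    (∀ s : ℂ, 2 < s.re → L s = Lf (fun I => psbC F I * c I) s) ∧ L 1 ≠ 0

/-- the series of `ψbar_F c` continues and its normalised value at `1` is a unit above `q` -/
def UnitT (q : ℕ) (Ω : ℂ) (F : Type u) [Field F] [NumberField F] [Algebra K F]
    (c : Ideal (𝓞 F) → ℂ) : Prop :=
  ∃ L : ℂ → ℂ, Differentiable ℂ L ∧
    (∀ s : ℂ, 2 < s.re → L s = Lf (fun I => psbC F I * c I) s) ∧
    ∀ W : ValuationSubring ℂ, (q : ℂ)⁻¹ ∉ W → W.valuation (L 1 / Ω ^ (Module.finrank K F)) = 1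

/-- the series of two functions with the same values at the places are equal -/
theorem Lf_congr {F : Type u} [Field F] [NumberField F] [Algebra K F]
    {c c' : Ideal (𝓞 F) → ℂ} (h1 : c 1 = 1) (hmul : ∀ I J, c (I * J) = c I * c J)
    (hle : ∀ I, ‖c I‖ ≤ 1) (h1' : c' 1 = 1) (hmul' : ∀ I J, c' (I * J) = c' I * c' J)
    (hle' : ∀ I, ‖c' I‖ ≤ 1)
    (h : ∀ v : HeightOneSpectrum (𝓞 F), c v.asIdeal = c' v.asIdeal) (s : ℂ) (hs : 2 < s.re) :
    Lf (fun I => psbC F I * c I) s = Lf (fun I => psbC F I * c' I) s := by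
  have h2 := (hasProd_Lf (fun I => psbC F I * c I) (by rw [psbC_one, h1, mul_one])
    (fun I J => by rw [psbC_mul, hmul]; ring) (1 / 2) (by norm_num)
    (fun I => norm_psbC_mul_le _ I (hle I)) s (by linarith)).2
  have h3 := (hasProd_Lf (fun I => psbC F I * c' I) (by rw [psbC_one, h1', mul_one])
    (fun I J => by rw [psbC_mul, hmul']; ring) (1 / 2) (by norm_num)
    (fun I => norm_psbC_mul_le _ I (hle' I)) s (by linarith)).2
  refine h2.unique ?_
  have e : (fun v : HeightOneSpectrum (𝓞 F) =>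
      (1 - psbC F v.asIdeal * c v.asIdeal * (Ideal.absNorm v.asIdeal : ℂ) ^ (-s))⁻¹) =
      fun v => (1 - psbC F v.asIdeal * c' v.asIdeal * (Ideal.absNorm v.asIdeal : ℂ) ^ (-s))⁻¹ := by
    funext v
    rw [h v]
  rw [e]
  exact h3

/-- removing the Euler factors at the places above `m` -/
theorem lgoodT_indC {F : Type u} [Field F] [NumberField F] [Algebra K F] {m : Ideal (𝓞 F)}
    (hm0 : m ≠ 0) (h : LGood F) : LGoodT F (indC m) := by
  have hBfin : {v : HeightOneSpectrum (𝓞 F) | m ≤ v.asIdeal}.Finite := by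
    refine (Ideal.finite_factors hm0).subset fun v hv => ?_
    exact Ideal.dvd_iff_le.mpr hv
  obtain ⟨B, hBdef⟩ : ∃ B, B = hBfin.toFinset := ⟨_, rfl⟩
  have hB : ∀ v, v ∈ B ↔ m ≤ v.asIdeal := fun v => by
    rw [hBdef, Set.Finite.mem_toFinset]; rfl
  obtain ⟨L, hL, hL1, hne⟩ := h
  refine ⟨fun s => L s * ∏ v ∈ B, (1 - psbC F v.asIdeal *
    (Ideal.absNorm v.asIdeal : ℂ) ^ (-s)), hL.mul (differentiable_euler B _), fun s hs => ?_, ?_⟩
  · change L s * _ = _
    rw [Lf_indC m B hB s hs, hL1 s hs]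
  · exact mul_ne_zero hne (Finset.prod_ne_zero_iff.mpr fun w _ => euler_ne w)

/-- removing the Euler factors at the places above `m` which are prime to `ℓ` and not anomalous -/
theorem unitT_indC {F : Type u} [Field F] [NumberField F] [Algebra K F] {m : Ideal (𝓞 F)}
    (hm0 : m ≠ 0) {ℓ : ℕ} (hℓ : ℓ.Prime) (hmq : IsCoprime m (Ideal.span {(ℓ : 𝓞 F)})) {Ω : ℂ}
    (ha : ∀ v : HeightOneSpectrum (𝓞 F), m ≤ v.asIdeal → up HC.f F ∉ v.asIdeal →
      IsCoprime (psi F v.asIdeal - 1) (ℓ : 𝓞 K))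
    (h : UnitProp ℓ Ω F) : UnitT ℓ Ω F (indC m) := by
  have hfl : Fact ℓ.Prime := ⟨hℓ⟩
  have hBfin : {v : HeightOneSpectrum (𝓞 F) | m ≤ v.asIdeal}.Finite := by
    refine (Ideal.finite_factors hm0).subset fun v hv => ?_
    exact Ideal.dvd_iff_le.mpr hv
  obtain ⟨B, hBdef⟩ : ∃ B, B = hBfin.toFinset := ⟨_, rfl⟩
  have hB : ∀ v, v ∈ B ↔ m ≤ v.asIdeal := fun v => by
    rw [hBdef, Set.Finite.mem_toFinset]; rfl
  obtain ⟨L, hL, hL1, hne⟩ := h
  refine ⟨fun s => L s * ∏ v ∈ B, (1 - psbC F v.asIdeal *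
    (Ideal.absNorm v.asIdeal : ℂ) ^ (-s)), hL.mul (differentiable_euler B _), fun s hs => ?_,
    fun W hW => ?_⟩
  · change L s * _ = _
    rw [Lf_indC m B hB s hs, hL1 s hs]
  · have hvℓ : ∀ v : HeightOneSpectrum (𝓞 F), m ≤ v.asIdeal → (ℓ : 𝓞 F) ∉ v.asIdeal := by
      intro v hv h1
      obtain ⟨a, ha, b, hb, hab⟩ := Ideal.isCoprime_iff_exists.1 hmq
      apply v.isPrime.ne_top
      rw [Ideal.eq_top_iff_one, ← hab]
      exact v.asIdeal.add_mem (hv ha) ((Ideal.span_singleton_le_iff_mem _).2 h1 hb)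
    have hE : W.valuation (∏ v ∈ B, (1 - psbC F v.asIdeal *
        (Ideal.absNorm v.asIdeal : ℂ) ^ (-(1 : ℂ)))) = 1 := by
      rw [map_prod]
      refine Finset.prod_eq_one fun v hv => ?_
      have hv' := (hB v).1 hv
      by_cases h3 : up HC.f F ∈ v.asIdeal
      · rw [psbC_bad v h3, zero_mul, sub_zero, map_one]
      · exact val_euler W hW v h3 (hvℓ v hv') (ha v hv' h3)
    change W.valuation (L 1 * (∏ v ∈ B, (1 - psbC F v.asIdeal *
      (Ideal.absNorm v.asIdeal : ℂ) ^ (-(1 : ℂ)))) / Ω ^ (Module.finrank K F)) = 1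
    rw [← div_mul_eq_mul_div, map_mul, hE, mul_one]
    exact hne W hW

end Pool.Agent.Lib.MP_1a91b9_nuX.TC
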