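import Pool.Agent.Lib.MP_1a91b9_nuX.TC.Defs

/-!
# Descent with a character in a cyclic extension of prime degree
-/

set_option autoImplicit false

namespace Pool.Agent.Lib.MP_1a91b9_nuX.TC

variable [Pool.Agent.Lib.MP_1a91b9_nuT.CD]

open NumberField IsDedekindDomain Pool.Agent.Lib.MP_1a91b9_nt Pool.Agent.Lib.MP_1a91b9_nuT
open Pool.Agent.Lib.MP_1a91b9_nuT.S4 (Over Lf hasProd_Lf hasProd_over indC indC_of indC_of_not
  indC_one indC_mul norm_indC_le entire_eq le_iff_not_coprime differentiable_euler val_integral)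
open Pool.Agent.Lib.MP_1a91b9_nuG (up Ram addI addI_place addI_one addI_mul ValueProp
  cyc_cases prod_one_sub_mul)
open Pool.Agent.Lib.MP_1a91b9_nuX.AN
open Pool.Agent.Lib.MP_1a91b9_nuT.TG (RayData chr chr_of chr_of_not chr_one chr_mul norm_chr_le
  chr_zero RayData.chr_ray RayData.unr RayData.split isIntegral_chr one_of_prod one_cases)

universe u

section
variable {F F' : Type u} [Field F] [NumberField F] [Field F'] [NumberField F'] [Algebra F F']
  [Algebra K F] [Algebra K F'] [IsScalarTower K F F'] [HC]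

/-- The factorisation of the Euler factor, with a character. -/
theorem euler_ray {p : ℕ} [hp : Fact p.Prime] [IsGalois F F'] (hL : Module.finrank F F' = p)
    {m : Ideal (𝓞 F)} {x : HeightOneSpectrum (𝓞 F) → ZMod p} (hx : RayData p F' m x)
    {c : Ideal (𝓞 F) → ℂ} {c' : Ideal (𝓞 F') → ℂ}
    (v : HeightOneSpectrum (𝓞 F)) (hc : m ≤ v.asIdeal → c v.asIdeal = 0)
    (hc' : ∀ w : Over F' v, c' w.1.asIdeal = c v.asIdeal ^ w.1.asIdeal.inertiaDeg (𝓞 F))
    (s : ℂ) :
    ∏ w : Over F' v, (1 - (psbC F' w.1.asIdeal * c' w.1.asIdeal) *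
        (Ideal.absNorm w.1.asIdeal : ℂ) ^ (-s))⁻¹ =
      ∏ j : ZMod p, (1 - (psbC F v.asIdeal * (c v.asIdeal * chr x m j v.asIdeal)) *
        (Ideal.absNorm v.asIdeal : ℂ) ^ (-s))⁻¹ := by
  classical
  by_cases hm : m ≤ v.asIdeal
  · have hc0 : ∀ j, c v.asIdeal * chr x m j v.asIdeal = 0 := fun j => by
      rw [hc hm, zero_mul]
    simp only [hc0, mul_zero, zero_mul, sub_zero, inv_one, Finset.prod_const_one]
    refine Finset.prod_eq_one fun w _ => ?_
    have hpos : w.1.asIdeal.inertiaDeg (𝓞 F) ≠ 0 := by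
      have h1 := cyc_cases hp.out hL v
      rcases h1 with ⟨-, -, h2⟩ | ⟨-, -, h2⟩ | ⟨-, -, h2⟩
      · rw [(h2 w).1]
        exact one_ne_zero
      · rw [(h2 w).1]
        exact hp.out.ne_zero
      · rw [(h2 w).1]
        exact one_ne_zero
    rw [hc' w, hc hm, zero_pow hpos, mul_zero, zero_mul, sub_zero, inv_one]
  · have hcop : IsCoprime v.asIdeal m := by
      by_contra h
      exact hm ((le_iff_not_coprime m v).mpr h)
    have hch : ∀ j, chr x m j v.asIdeal = ZMod.stdAddChar (j * x v) := fun j => by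
      rw [chr_of hcop, addI_place]
    simp only [hch]
    rcases cyc_cases hp.out hL v with ⟨h0, h1, h2⟩ | ⟨h0, h1, h2⟩ | ⟨h0, h1, h2⟩
    · have hx0 : x v = 0 := (hx.split v hm).mpr h1
      simp only [hx0, mul_zero, AddChar.map_zero_eq_one, mul_one]
      rw [Finset.prod_congr rfl (g := fun _ =>
        (1 - psbC F v.asIdeal * c v.asIdeal * (Ideal.absNorm v.asIdeal : ℂ) ^ (-s))⁻¹)]
      · rw [Finset.prod_const, Finset.prod_const, Finset.card_univ, h1, Finset.card_univ,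
          ZMod.card]
      · intro w _
        have h3 := (h2 w).2
        rw [nrm_eq, nrm_eq] at h3
        rw [psbC_over v w, hc' w, (h2 w).1, pow_one, pow_one, h3]
    · have hx0 : x v ≠ 0 := by
        intro h
        have := (hx.split v hm).mp h
        rw [h1] at this
        exact hp.out.one_lt.ne this
      have e2 : ∏ j : ZMod p, (1 - psbC F v.asIdeal * (c v.asIdeal *
          ZMod.stdAddChar (j * x v)) * (Ideal.absNorm v.asIdeal : ℂ) ^ (-s)) =
          1 - (psbC F v.asIdeal * c v.asIdeal * (Ideal.absNorm v.asIdeal : ℂ) ^ (-s)) ^ p := by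
        rw [← prod_one_sub_mul (x v) hx0]
        refine Finset.prod_congr rfl fun j _ => ?_
        ring
      rw [Finset.prod_inv_distrib (f := fun j => 1 - psbC F v.asIdeal * (c v.asIdeal *
        ZMod.stdAddChar (j * x v)) * (Ideal.absNorm v.asIdeal : ℂ) ^ (-s)), e2]
      rw [Finset.prod_congr rfl (g := fun _ =>
        (1 - (psbC F v.asIdeal * c v.asIdeal * (Ideal.absNorm v.asIdeal : ℂ) ^ (-s)) ^ p)⁻¹)]
      · rw [Finset.prod_const, Finset.card_univ, h1, pow_one]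
      · intro w _
        have h3 := (h2 w).2
        rw [nrm_eq, nrm_eq] at h3
        rw [psbC_over v w, hc' w, (h2 w).1, h3, mul_pow, mul_pow]
        congr 3
        rw [Nat.cast_pow, ← Complex.natCast_cpow_natCast_mul, Complex.cpow_nat_mul]
    · exact absurd h0 (hx.unr v hm)

/-- The factorisation of the series, with a character. -/
theorem ray_Lf {p : ℕ} [hp : Fact p.Prime] [IsGalois F F'] (hL : Module.finrank F F' = p)
    {m : Ideal (𝓞 F)} (hm1 : m ≠ 1) {x : HeightOneSpectrum (𝓞 F) → ZMod p}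
    (hx : RayData p F' m x) {c : Ideal (𝓞 F) → ℂ} (hc : RC m c) {c' : Ideal (𝓞 F') → ℂ}
    {m' : Ideal (𝓞 F')} (hcm : RC m' c')
    (hc' : ∀ (v : HeightOneSpectrum (𝓞 F)) (w : Over F' v),
      c' w.1.asIdeal = c v.asIdeal ^ w.1.asIdeal.inertiaDeg (𝓞 F)) (s : ℂ) (hs : 2 < s.re) :
    Lf (fun I => psbC F' I * c' I) s =
      ∏ j : ZMod p, Lf (fun I => psbC F I * (c I * chr x m j I)) s := by
  have h1 := (hasProd_Lf (fun I => psbC F' I * c' I)
    (by rw [psbC_one, hcm.one, mul_one])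
    (fun I J => by rw [psbC_mul, hcm.mul]; ring) (1 / 2) (by norm_num)
    (fun I => norm_psbC_mul_le _ I (hcm.le I)) s (by linarith)).2
  have h2 := hasProd_over (F := F) (F' := F') _ _ h1
  have hle : ∀ (j : ZMod p) (I : Ideal (𝓞 F)), ‖c I * chr x m j I‖ ≤ 1 := by
    intro j I
    rw [norm_mul]
    exact mul_le_one₀ (hc.le I) (norm_nonneg _) (norm_chr_le x m j I)
  have h4 : HasProd (fun v : HeightOneSpectrum (𝓞 F) => ∏ j : ZMod p,
      (1 - (psbC F v.asIdeal * (c v.asIdeal * chr x m j v.asIdeal)) *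
        (Ideal.absNorm v.asIdeal : ℂ) ^ (-s))⁻¹)
      (∏ j : ZMod p, Lf (fun I => psbC F I * (c I * chr x m j I)) s) :=
    hasProd_prod fun j _ => (hasProd_Lf (fun I => psbC F I * (c I * chr x m j I))
      (by rw [psbC_one, hc.one, chr_one, mul_one, mul_one])
      (fun I J => by rw [psbC_mul, hc.mul, chr_mul x hm1]; ring) (1 / 2) (by norm_num)
      (fun I => norm_psbC_mul_le (fun I => c I * chr x m j I) I (hle j I)) s (by linarith)).2
  refine h2.unique ?_
  have e : (fun v : HeightOneSpectrum (𝓞 F) => ∏ w : Over F' v, (1 - (psbC F' w.1.asIdeal *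
        c' w.1.asIdeal) * (Ideal.absNorm w.1.asIdeal : ℂ) ^ (-s))⁻¹) = fun v => ∏ j : ZMod p,
      (1 - (psbC F v.asIdeal * (c v.asIdeal * chr x m j v.asIdeal)) *
        (Ideal.absNorm v.asIdeal : ℂ) ^ (-s))⁻¹ :=
    funext fun v => euler_ray hL hx v (hc.place v) (hc' v) s
  rw [e]
  exact h4

/-- The series in an extension of degree one. -/
theorem one_Lf [IsGalois F F'] (hL : Module.finrank F F' = 1)
    {m : Ideal (𝓞 F)} {c : Ideal (𝓞 F) → ℂ} (hc : RC m c) {c' : Ideal (𝓞 F') → ℂ}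
    {m' : Ideal (𝓞 F')} (hcm : RC m' c')
    (hc' : ∀ (v : HeightOneSpectrum (𝓞 F)) (w : Over F' v),
      c' w.1.asIdeal = c v.asIdeal ^ w.1.asIdeal.inertiaDeg (𝓞 F)) (s : ℂ) (hs : 2 < s.re) :
    Lf (fun I => psbC F' I * c' I) s = Lf (fun I => psbC F I * c I) s := by
  have h1 := (hasProd_Lf (fun I => psbC F' I * c' I)
    (by rw [psbC_one, hcm.one, mul_one])
    (fun I J => by rw [psbC_mul, hcm.mul]; ring) (1 / 2) (by norm_num)
    (fun I => norm_psbC_mul_le _ I (hcm.le I)) s (by linarith)).2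
  have h2 := hasProd_over (F := F) (F' := F') _ _ h1
  have h4 := (hasProd_Lf (fun I => psbC F I * c I)
    (by rw [psbC_one, hc.one, mul_one])
    (fun I J => by rw [psbC_mul, hc.mul]; ring) (1 / 2) (by norm_num)
    (fun I => norm_psbC_mul_le _ I (hc.le I)) s (by linarith)).2
  refine h2.unique ?_
  have e : (fun v : HeightOneSpectrum (𝓞 F) => ∏ w : Over F' v, (1 - (psbC F' w.1.asIdeal *
        c' w.1.asIdeal) * (Ideal.absNorm w.1.asIdeal : ℂ) ^ (-s))⁻¹) = fun v =>
      (1 - (psbC F v.asIdeal * c v.asIdeal) * (Ideal.absNorm v.asIdeal : ℂ) ^ (-s))⁻¹ := by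
    funext v
    obtain ⟨h7, h8⟩ := one_cases hL v
    rw [Finset.prod_congr rfl (g := fun _ =>
      (1 - (psbC F v.asIdeal * c v.asIdeal) * (Ideal.absNorm v.asIdeal : ℂ) ^ (-s))⁻¹)]
    · rw [Finset.prod_const, Finset.card_univ, h7, pow_one]
    · intro w _
      have h9 := (h8 w).2
      rw [nrm_eq, nrm_eq] at h9
      rw [psbC_over v w, hc' v w, (h8 w).1, pow_one, pow_one, h9]
  rw [e]
  exact h4

theorem lgoodT_one [IsGalois F F'] (hL : Module.finrank F F' = 1)
    {m : Ideal (𝓞 F)} {c : Ideal (𝓞 F) → ℂ} (hc : RC m c) {c' : Ideal (𝓞 F') → ℂ}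
    {m' : Ideal (𝓞 F')} (hcm : RC m' c')
    (hc' : ∀ (v : HeightOneSpectrum (𝓞 F)) (w : Over F' v),
      c' w.1.asIdeal = c v.asIdeal ^ w.1.asIdeal.inertiaDeg (𝓞 F))
    (h : LGoodT F' c') : LGoodT F c := by
  obtain ⟨L, h1, h2, h3⟩ := h
  exact ⟨L, h1, fun s hs => by rw [h2 s hs, one_Lf hL hc hcm hc' s hs], h3⟩

theorem unitT_one [IsGalois F F'] (hL : Module.finrank F F' = 1)
    {m : Ideal (𝓞 F)} {c : Ideal (𝓞 F) → ℂ} (hc : RC m c) {c' : Ideal (𝓞 F') → ℂ}
    {m' : Ideal (𝓞 F')} (hcm : RC m' c')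
    (hc' : ∀ (v : HeightOneSpectrum (𝓞 F)) (w : Over F' v),
      c' w.1.asIdeal = c v.asIdeal ^ w.1.asIdeal.inertiaDeg (𝓞 F)) {q : ℕ} {Ω : ℂ}
    (h : UnitT q Ω F' c') : UnitT q Ω F c := by
  obtain ⟨L, h1, h2, h3⟩ := h
  refine ⟨L, h1, fun s hs => by rw [h2 s hs, one_Lf hL hc hcm hc' s hs], fun W hW => ?_⟩
  rw [← h3 W hW, ← Module.finrank_mul_finrank K F F', hL, mul_one]

/-- **Descent with a character.** -/
theorem lgoodT_desc {p : ℕ} [hp : Fact p.Prime] [IsGalois F F'] (hL : Module.finrank F F' = p)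
    {m : Ideal (𝓞 F)} (hm0 : m ≠ 0) (hm1 : m ≠ 1) (hm3 : m ≤ Ideal.span {up HC.f F})
    {x : HeightOneSpectrum (𝓞 F) → ZMod p} (hx : RayData p F' m x) {q : ℕ} (hq0 : q ≠ 0)
    (hmq : IsCoprime m (Ideal.span {(q : 𝓞 F)})) {Ω : ℂ} (hV : ValueProp HC.f q Ω F)
    {c : Ideal (𝓞 F) → ℂ} (hc : RC m c) {c' : Ideal (𝓞 F') → ℂ}
    {m' : Ideal (𝓞 F')} (hcm : RC m' c')
    (hc' : ∀ (v : HeightOneSpectrum (𝓞 F)) (w : Over F' v),
      c' w.1.asIdeal = c v.asIdeal ^ w.1.asIdeal.inertiaDeg (𝓞 F))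
    (hg : LGoodT F' c') : LGoodT F c := by
  classical
  obtain ⟨ι, hι, J, G, hG, hJ, -, hfam⟩ := exists_family hq0 hV m hm0 hm1 hm3 hmq
  obtain ⟨L', hLd', hL1', hne⟩ := hg
  let X : ZMod p → Ideal (𝓞 F) → ℂ := fun j I => c I * chr x m j I
  let G1 : ZMod p → ℂ → ℂ := fun j s => ∑ i, X j (J i) * G i s
  have hG1d : ∀ j, Differentiable ℂ (G1 j) := fun j =>
    Differentiable.fun_sum fun i _ => (differentiable_const _).mul (hG i)
  have hG1L : ∀ j, ∀ s : ℂ, 2 < s.re → Lf (fun I => psbC F I * X j I) s = G1 j s := by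
    intro j s hs
    refine hfam (X j) (fun I hI => ?_) (fun I => ?_) (fun I J' hIJ => ?_) s hs
    · change c I * _ = 0
      rw [hc.out I hI, zero_mul]
    · change ‖c I * chr x m j I‖ ≤ 1
      rw [norm_mul]
      exact mul_le_one₀ (hc.le I) (norm_nonneg _) (norm_chr_le x m j I)
    · change c I * chr x m j I = c J' * chr x m j J'
      rw [hc.ray I J' hIJ, hx.chr_ray hm0 hm1 j I J' hIJ]
  have id2 : L' = fun s => ∏ j : ZMod p, G1 j s := by
    refine entire_eq hLd' (Differentiable.fun_finsetProd fun j _ => hG1d j) fun s hs => ?_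
    rw [hL1' s hs, ray_Lf hL hm1 hx hc hcm hc' s hs]
    exact Finset.prod_congr rfl fun j _ => hG1L j s hs
  have h1 : ∏ j : ZMod p, G1 j 1 ≠ 0 := by
    rw [id2] at hne
    exact hne
  have h2 : G1 0 1 ≠ 0 := (Finset.prod_ne_zero_iff.mp h1) 0 (Finset.mem_univ _)
  refine ⟨G1 0, hG1d 0, fun s hs => ?_, h2⟩
  rw [← hG1L 0 s hs]
  congr 1
  funext I
  change psbC F I * (c I * chr x m 0 I) = _
  rw [chr_zero]
  by_cases hI : IsCoprime I m
  · rw [indC_of hI, mul_one]
  · rw [indC_of_not hI, hc.out I hI, mul_zero]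

/-- **Descent with a character, the unit property.** -/
theorem unitT_desc {p : ℕ} [hp : Fact p.Prime] [IsGalois F F'] (hL : Module.finrank F F' = p)
    {m : Ideal (𝓞 F)} (hm0 : m ≠ 0) (hm1 : m ≠ 1) (hm3 : m ≤ Ideal.span {up HC.f F})
    {x : HeightOneSpectrum (𝓞 F) → ZMod p} (hx : RayData p F' m x) {q : ℕ} (hq0 : q ≠ 0)
    (hmq : IsCoprime m (Ideal.span {(q : 𝓞 F)})) {Ω : ℂ} (hV : ValueProp HC.f q Ω F)
    {c : Ideal (𝓞 F) → ℂ} (hc : RC m c) {c' : Ideal (𝓞 F') → ℂ}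
    {m' : Ideal (𝓞 F')} (hcm : RC m' c')
    (hc' : ∀ (v : HeightOneSpectrum (𝓞 F)) (w : Over F' v),
      c' w.1.asIdeal = c v.asIdeal ^ w.1.asIdeal.inertiaDeg (𝓞 F))
    (hg : UnitT q Ω F' c') : UnitT q Ω F c := by
  classical
  obtain ⟨ι, hι, J, G, hG, hJ, hGW, hfam⟩ := exists_family hq0 hV m hm0 hm1 hm3 hmq
  obtain ⟨L', hLd', hL1', hne⟩ := hg
  let X : ZMod p → Ideal (𝓞 F) → ℂ := fun j I => c I * chr x m j I
  let G1 : ZMod p → ℂ → ℂ := fun j s => ∑ i, X j (J i) * G i s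
  have hG1d : ∀ j, Differentiable ℂ (G1 j) := fun j =>
    Differentiable.fun_sum fun i _ => (differentiable_const _).mul (hG i)
  have hG1L : ∀ j, ∀ s : ℂ, 2 < s.re → Lf (fun I => psbC F I * X j I) s = G1 j s := by
    intro j s hs
    refine hfam (X j) (fun I hI => ?_) (fun I => ?_) (fun I J' hIJ => ?_) s hs
    · change c I * _ = 0
      rw [hc.out I hI, zero_mul]
    · change ‖c I * chr x m j I‖ ≤ 1
      rw [norm_mul]
      exact mul_le_one₀ (hc.le I) (norm_nonneg _) (norm_chr_le x m j I)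
    · change c I * chr x m j I = c J' * chr x m j J'
      rw [hc.ray I J' hIJ, hx.chr_ray hm0 hm1 j I J' hIJ]
  have id2 : L' = fun s => ∏ j : ZMod p, G1 j s := by
    refine entire_eq hLd' (Differentiable.fun_finsetProd fun j _ => hG1d j) fun s hs => ?_
    rw [hL1' s hs, ray_Lf hL hm1 hx hc hcm hc' s hs]
    exact Finset.prod_congr rfl fun j _ => hG1L j s hs
  refine ⟨G1 0, hG1d 0, fun s hs => ?_, fun W hW => ?_⟩
  · rw [← hG1L 0 s hs]
    congr 1
    funext I
    change psbC F I * (c I * chr x m 0 I) = _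
    rw [chr_zero]
    by_cases hI : IsCoprime I m
    · rw [indC_of hI, mul_one]
    · rw [indC_of_not hI, hc.out I hI, mul_zero]
  · have hj : ∀ j : ZMod p, W.valuation (G1 j 1 / Ω ^ (Module.finrank K F)) ≤ 1 := by
      intro j
      have e : G1 j 1 / Ω ^ (Module.finrank K F) =
          ∑ i, X j (J i) * (G i 1 / Ω ^ (Module.finrank K F)) := by
        change (∑ i, X j (J i) * G i 1) / Ω ^ (Module.finrank K F) = _
        rw [Finset.sum_div]
        exact Finset.sum_congr rfl fun i _ => by rw [mul_div_assoc]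
      rw [e]
      refine Valuation.map_sum_le _ fun i _ => ?_
      rw [map_mul]
      exact mul_le_one' (val_integral W ((hc.int _).mul (isIntegral_chr x m j _))) (hGW i W hW)
    have hprod : ∏ j : ZMod p, W.valuation (G1 j 1 / Ω ^ (Module.finrank K F)) = 1 := by
      have h1 : ∏ j : ZMod p, (G1 j 1 / Ω ^ (Module.finrank K F)) =
          L' 1 / Ω ^ (Module.finrank K F') := by
        rw [Finset.prod_div_distrib, Finset.prod_const, Finset.card_univ, ZMod.card,
          ← pow_mul, ← Module.finrank_mul_finrank K F F', hL, id2]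
      rw [← map_prod, h1]
      exact hne W hW
    exact one_of_prod _ hj hprod 0

end

end Pool.Agent.Lib.MP_1a91b9_nuX.TC
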