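import Pool.Agent.Lib.MP_1a91b9_nuX.TC.Step
import Pool.Agent.Lib.MP_1a91b9_nuG.RayC

/-!
# The ray class character of a character of the Galois group of the field of a torsion point
-/

set_option autoImplicit false

namespace Pool.Agent.Lib.MP_1a91b9_nuX.TC

variable [Pool.Agent.Lib.MP_1a91b9_nuT.CD]

open NumberField IsDedekindDomain WeierstrassCurve Pool.Agent.Lib.MP_1a91b9_nuT
open Pool.Agent.Lib.MP_1a91b9_nuX.DB Pool.Agent.Lib.MP_1a91b9_nuX.DX
open Pool.Agent.Lib.MP_1a91b9_nt (nrm nrm_eq)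
open Pool.Agent.Lib.MP_1a91b9_nuG (ideal_induction exists_inv_mod)
open Pool.Agent.Lib.MP_1a91b9_nuT.S4 (nK RayEq Over ne_zero_of_coprime indC indC_of indC_of_not)
open Pool.Agent.Lib.MP_1a91b9_nuT.CF (IsFr exists_over exists_fr)
open Pool.Agent.Lib.MP_1a91b9_nuX.TG
open Pool.Agent.Lib.MP_1a91b9_nuT.TG (coprime_map_iff)

universe u

variable [HC]

section
variable {L : Type u} [Field L] [NumberField L] [Algebra K L] [DecidableEq L]

open Classical in
/-- the automorphism which acts on `T` as `ψ_N(I)` -/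
noncomputable def art (N : Type u) [Field N] [NumberField N] [Algebra K N] [Algebra N L]
    [IsScalarTower K N L] (T : Pt L) (I : Ideal (𝓞 N)) : Gal(L/N) :=
  if h : ∃ τ : Gal(L/N), ga τ T = sm L (psi N I) T then h.choose else 1

open Classical in
/-- the ray class function of a character of the Galois group -/
noncomputable def cT (N : Type u) [Field N] [NumberField N] [Algebra K N] [Algebra N L]
    [IsScalarTower K N L] (T : Pt L) (m : Ideal (𝓞 N)) (θ : Gal(L/N) →* ℂˣ)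
    (I : Ideal (𝓞 N)) : ℂ :=
  if IsCoprime I m then ((θ (art N T I) : ℂˣ) : ℂ) else 0

end

section
variable {μ : 𝓞 K} {N L : Type u} [Field N] [NumberField N] [Algebra K N]
  [Field L] [NumberField L] [Algebra K L]
  [Algebra N L] [IsScalarTower K N L] [DecidableEq L] [IsGalois N L]
  {T : Pt L}

omit [IsGalois N L] in
theorem art_spec {I : Ideal (𝓞 N)} (h : ∃ τ : Gal(L/N), ga τ T = sm L (psi N I) T) :
    ga (art N T I) T = sm L (psi N I) T := by
  rw [art, dif_pos h]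
  exact h.choose_spec

omit [IsGalois N L] in
theorem cT_of {m : Ideal (𝓞 N)} {θ : Gal(L/N) →* ℂˣ} {I : Ideal (𝓞 N)} (h : IsCoprime I m) :
    cT N T m θ I = ((θ (art N T I) : ℂˣ) : ℂ) := if_pos h

omit [IsGalois N L] in
theorem cT_of_not {m : Ideal (𝓞 N)} {θ : Gal(L/N) →* ℂˣ} {I : Ideal (𝓞 N)}
    (h : ¬ IsCoprime I m) : cT N T m θ I = 0 := if_neg h

omit [IsGalois N L] in
theorem _root_.Pool.Agent.Lib.MP_1a91b9_nuX.TG.AbT.uniq (hT : AbT μ N T) {σ τ : Gal(L/N)}
    (h : ga σ T = ga τ T) : σ = τ := by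
  have h2 : ga (τ⁻¹ * σ) T = T := by
    rw [ga_mul, h, ← ga_mul, inv_mul_cancel, ga_one]
  have h3 := hT.gen _ h2
  rw [inv_mul_eq_one] at h3
  exact h3.symm

omit [IsGalois N L] in
theorem art_eq (hT : AbT μ N T) {I : Ideal (𝓞 N)} {τ : Gal(L/N)}
    (h : ga τ T = sm L (psi N I) T) : art N T I = τ :=
  hT.uniq ((art_spec ⟨τ, h⟩).trans h.symm)

/-- Frobenius elements at the places prime to the modulus -/
theorem fr_sm (hT : AbT μ N T) {m : Ideal (𝓞 N)}
    (hm : m ≤ Ideal.span {MP_1a91b9_nuG.up (gB μ) N}) (v : HeightOneSpectrum (𝓞 N))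
    (hv : ¬ m ≤ v.asIdeal) (W : HeightOneSpectrum (𝓞 L)) (σ : Gal(L/N)) (hW : W.under (𝓞 N) = v)
    (hσ : IsFr v W σ) : ga σ T = sm L (psi N v.asIdeal) T := by
  have h1 : ∀ c : 𝓞 K, c ∣ gB μ → algebraMap (𝓞 K) (𝓞 N) c ∉ v.asIdeal := by
    intro c hc h
    refine hv (hm.trans ((Ideal.span_singleton_le_iff_mem _).2 ?_))
    exact v.asIdeal.mem_of_dvd (map_dvd (algebraMap (𝓞 K) (𝓞 N)) hc) h
  have h3 : ((CD.bad : ℤ) : 𝓞 L) ∉ W.asIdeal := by
    intro h
    apply h1 _ (six_dvd_gB μ)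
    rw [map_intCast, ← hW]
    change algebraMap (𝓞 N) (𝓞 L) _ ∈ W.asIdeal
    rwa [map_intCast]
  have h4 : ((nAb μ : ℕ) : 𝓞 L) ∉ W.asIdeal := by
    intro h
    apply h1 _ (nAb_dvd_gB μ)
    rw [map_natCast, ← hW]
    change algebraMap (𝓞 N) (𝓞 L) _ ∈ W.asIdeal
    rwa [map_natCast]
  have h5 := frob_psi (k := N) W (val_six_of_not_mem W h3) σ (fun x => by
    rw [hW, ← nrm_eq]
    exact hσ x) (Pool.Agent.Lib.MP_1a91b9_nuX.TG.val_one_of_not_mem W _ h4) (nsmul_nAb hT.ord)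
  rw [hW] at h5
  exact h5

theorem art_fr (hT : AbT μ N T) {m : Ideal (𝓞 N)}
    (hm : m ≤ Ideal.span {MP_1a91b9_nuG.up (gB μ) N}) (v : HeightOneSpectrum (𝓞 N))
    (hv : ¬ m ≤ v.asIdeal) (W : HeightOneSpectrum (𝓞 L)) (σ : Gal(L/N)) (hW : W.under (𝓞 N) = v)
    (hσ : IsFr v W σ) : art N T v.asIdeal = σ :=
  art_eq hT (fr_sm hT hm v hv W σ hW hσ)

/-- the automorphism exists -/
theorem exists_art (hT : AbT μ N T) {m : Ideal (𝓞 N)}
    (hm : m ≤ Ideal.span {MP_1a91b9_nuG.up (gB μ) N}) (I : Ideal (𝓞 N)) (hI0 : I ≠ 0)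
    (hI : IsCoprime I m) : ∃ τ : Gal(L/N), ga τ T = sm L (psi N I) T := by
  refine ideal_induction (P := fun I => IsCoprime I m → ∃ τ : Gal(L/N),
    ga τ T = sm L (psi N I) T) ?_ ?_ I hI0 hI
  · intro _
    refine ⟨1, ?_⟩
    rw [psi_one, map_one, ga_one]
    rfl
  · intro v J hJ ih hc
    obtain ⟨τ, h1⟩ := ih hc.of_mul_left_left
    obtain ⟨W, σ, -, -, h3⟩ := hT.exists_fr hm v (fun h => by
      have h5 := hc.of_mul_left_right
      exact ((S4.le_iff_not_coprime m v).1 h) h5)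
    refine ⟨τ * σ, ?_⟩
    rw [ga_mul, h3, ga_sm, h1, psi_mul, mul_comm, map_mul]
    rfl

theorem art_mul (hT : AbT μ N T) {m : Ideal (𝓞 N)}
    (hm : m ≤ Ideal.span {MP_1a91b9_nuG.up (gB μ) N}) {I J : Ideal (𝓞 N)} (hI0 : I ≠ 0)
    (hI : IsCoprime I m) (hJ0 : J ≠ 0) (hJ : IsCoprime J m) :
    art N T (I * J) = art N T I * art N T J := by
  apply art_eq hT
  rw [ga_mul, art_spec (exists_art hT hm J hJ0 hJ), ga_sm, art_spec (exists_art hT hm I hI0 hI),
    psi_mul, mul_comm, map_mul]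
  rfl

omit [IsGalois N L] in
theorem art_one (hT : AbT μ N T) : art N T (1 : Ideal (𝓞 N)) = 1 := by
  apply art_eq hT
  rw [psi_one, map_one, ga_one]
  rfl

omit [IsGalois N L] in
theorem art_span (hT : AbT μ N T) {m : Ideal (𝓞 N)}
    (hm : m ≤ Ideal.span {MP_1a91b9_nuG.up (gB μ) N}) {z : 𝓞 N} (hzm : z - 1 ∈ m) :
    art N T (Ideal.span {z}) = 1 := by
  apply art_eq hT
  have h3n : algebraMap (𝓞 K) (𝓞 N) (gB μ) ∣ z - 1 := Ideal.mem_span_singleton.1 (hm hzm)
  have h3 : MP_1a91b9_nuG.up HC.f N ∣ z - 1 :=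
    (map_dvd (algebraMap (𝓞 K) (𝓞 N)) (f_dvd_gB μ)).trans h3n
  have hn : algebraMap (𝓞 K) (𝓞 N) ((nAb μ : ℕ) : 𝓞 K) ∣ z - 1 :=
    (map_dvd (algebraMap (𝓞 K) (𝓞 N)) (nAb_dvd_gB μ)).trans h3n
  have h4 := S4.nK_congr (F := N) ((nAb μ : ℕ) : 𝓞 K) z 1 hn
  rw [S4.nK_one] at h4
  have h5 : μ ∣ nK z - 1 := (dvd_nAb μ).trans h4
  rw [ga_one, psi_span_one h3]
  have h7 := (hT.ord (nK z - 1)).2 h5
  rw [map_sub, map_one] at h7
  have h8 : sm L (nK z) T - T = 0 := h7
  exact (sub_eq_zero.1 h8).symm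

variable (θ : Gal(L/N) →* ℂˣ)

omit [IsGalois N L] in
theorem pow_theta (σ : Gal(L/N)) : ((θ σ : ℂˣ) : ℂ) ^ Nat.card Gal(L/N) = 1 := by
  rw [← Units.val_pow_eq_pow_val, ← map_pow, pow_card_eq_one', map_one, Units.val_one]

/-- **The ray class character.** -/
theorem rc_cT (hT : AbT μ N T) {m : Ideal (𝓞 N)} (hm0 : m ≠ 0) (hm1 : m ≠ 1)
    (hm : m ≤ Ideal.span {MP_1a91b9_nuG.up (gB μ) N}) : RC m (cT N T m θ) := by
  have hfd : FiniteDimensional N L := Module.Finite.of_restrictScalars_finite ℚ N L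
  have hfin : Finite Gal(L/N) := inferInstance
  have hcard : Nat.card Gal(L/N) ≠ 0 := Nat.card_pos.ne'
  have hmul : ∀ I J : Ideal (𝓞 N), cT N T m θ (I * J) = cT N T m θ I * cT N T m θ J := by
    intro I J
    by_cases hI : IsCoprime I m
    · by_cases hJ : IsCoprime J m
      · rw [cT_of (hI.mul_left hJ), cT_of hI, cT_of hJ,
          art_mul hT hm (ne_zero_of_coprime hm1 hI) hI (ne_zero_of_coprime hm1 hJ) hJ, map_mul,
          Units.val_mul]
      · rw [cT_of_not hJ, mul_zero, cT_of_not fun h => hJ h.of_mul_left_right]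
    · rw [cT_of_not hI, zero_mul, cT_of_not fun h => hI h.of_mul_left_left]
  have hne : ∀ I : Ideal (𝓞 N), IsCoprime I m → cT N T m θ I ≠ 0 := by
    intro I hI
    rw [cT_of hI]
    exact Units.ne_zero _
  have hspan : ∀ z : 𝓞 N, z - 1 ∈ m → cT N T m θ (Ideal.span {z}) = 1 := by
    intro z hz
    have hcop : IsCoprime (Ideal.span {z}) m := by
      rw [Ideal.isCoprime_iff_exists]
      refine ⟨z, Ideal.mem_span_singleton_self z, 1 - z, ?_, by ring⟩
      have e : 1 - z = -(z - 1) := by ring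
      rw [e]
      exact m.neg_mem hz
    rw [cT_of hcop, art_span hT hm hz, map_one, Units.val_one]
  refine ⟨?_, hmul, fun I => ?_, fun I => ?_, fun I hI => cT_of_not hI, fun I J h => ?_⟩
  · rw [cT_of isCoprime_one_left, art_one hT, map_one, Units.val_one]
  · by_cases hI : IsCoprime I m
    · rw [cT_of hI]
      exact (Complex.norm_eq_one_of_pow_eq_one (pow_theta θ _) hcard).le
    · rw [cT_of_not hI, norm_zero]
      exact zero_le_one
  · by_cases hI : IsCoprime I m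
    · rw [cT_of hI]
      refine IsIntegral.of_pow (Nat.pos_of_ne_zero hcard) ?_
      rw [pow_theta θ]
      exact isIntegral_one
    · rw [cT_of_not hI]
      exact isIntegral_zero
  · by_cases hI : IsCoprime I m
    swap
    · rw [cT_of_not hI, cT_of_not fun hJ => hI (h.symm.coprime hJ)]
    · obtain ⟨b, z, z', hb, hz, hz', h1, h2, h3, h4⟩ := h.normalize m hm0
      have hzm : IsCoprime (Ideal.span {z}) m := by
        rw [← h1]
        exact hI.mul_left h4
      obtain ⟨y, e1, e2⟩ := exists_inv_mod m z z' hzm (Ideal.mul_le_left h3)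
      have r1 := hspan _ e1
      have r2 := hspan _ e2
      rw [← Ideal.span_singleton_mul_span_singleton, hmul] at r1 r2
      have hy : cT N T m θ (Ideal.span {y}) ≠ 0 := by
        intro h0
        rw [h0, mul_zero] at r1
        exact zero_ne_one r1
      have h5 := mul_right_cancel₀ hy (r1.trans r2.symm)
      rw [← h1, ← h2, hmul, hmul] at h5
      exact mul_right_cancel₀ (hne b h4) h5

end

section
variable {μ : 𝓞 K} {N M L : Type u} [Field N] [NumberField N] [Algebra K N] [Field M]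
  [NumberField M] [Algebra K M] [Field L] [NumberField L] [Algebra K L] [Algebra N M]
  [Algebra N L] [Algebra M L] [IsScalarTower K N M] [IsScalarTower K N L]
  [IsScalarTower K M L] [IsScalarTower N M L] [DecidableEq L] [IsGalois N L]
  {T : Pt L}

/-- restriction of scalars -/
def toFH (N M L : Type u) [Field N] [Field M] [Field L] [Algebra N M] [Algebra N L]
    [Algebra M L] [IsScalarTower N M L] : Gal(L/M) →* Gal(L/N) where
  toFun := toF N
  map_one' := rfl
  map_mul' _ _ := rfl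

theorem ga_toFH (σ : Gal(L/M)) (P : Pt L) : ga (toFH N M L σ) P = ga σ P := rfl

theorem ga_pow {σ : Gal(L/N)} {a : 𝓞 K} (h : ga σ T = sm L a T) (n : ℕ) :
    ga (σ ^ n) T = sm L (a ^ n) T := by
  induction n with
  | zero =>
    rw [pow_zero, pow_zero, ga_one, map_one]
    rfl
  | succ n ih =>
    rw [pow_succ, ga_mul, h, ga_sm, ih, pow_succ', map_mul]
    rfl

/-- the torsion point over an intermediate field -/
theorem _root_.Pool.Agent.Lib.MP_1a91b9_nuX.TG.AbT.mid (hT : AbT μ N T) : AbT μ M T :=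
  ⟨hT.ne, hT.ord, fun τ hτ => by
    have h1 := hT.gen (toF N τ) hτ
    apply AlgEquiv.ext
    intro y
    rw [← toF_apply (F := N) τ y, h1]
    rfl⟩

/-- the compatibility of the characters of `N` and `M` -/
theorem cT_up (hT : AbT μ N T) {m : Ideal (𝓞 N)}
    (hm : m ≤ Ideal.span {MP_1a91b9_nuG.up (gB μ) N}) (θ : Gal(L/N) →* ℂˣ)
    (v : HeightOneSpectrum (𝓞 N)) (w : Over M v) :
    cT M T (m.map (algebraMap (𝓞 N) (𝓞 M))) (θ.comp (toFH N M L)) w.1.asIdeal =
      cT N T m θ v.asIdeal ^ w.1.asIdeal.inertiaDeg (𝓞 N) := by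
  have hGM : IsGalois M L := IsGalois.tower_top_of_isGalois N M L
  have hT' : AbT μ M T := hT.mid
  by_cases hv : m ≤ v.asIdeal
  · have h1 : ¬ IsCoprime v.asIdeal m := (S4.le_iff_not_coprime m v).1 hv
    have h2 : ¬ IsCoprime w.1.asIdeal (m.map (algebraMap (𝓞 N) (𝓞 M))) := fun h =>
      (coprime_map_iff m v w).1 h hv
    have hwp : w.1.asIdeal.IsPrime := w.1.isPrime
    have hpos : 0 < w.1.asIdeal.inertiaDeg (𝓞 N) := Ideal.inertiaDeg_pos _ _
    rw [cT_of_not h1, cT_of_not h2, zero_pow hpos.ne']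
  · have h1 : IsCoprime v.asIdeal m := by
      by_contra h
      exact hv ((S4.le_iff_not_coprime m v).2 h)
    have h2 : IsCoprime w.1.asIdeal (m.map (algebraMap (𝓞 N) (𝓞 M))) :=
      (coprime_map_iff m v w).2 hv
    rw [cT_of h1, cT_of h2]
    have hmM : m.map (algebraMap (𝓞 N) (𝓞 M)) ≤ Ideal.span {MP_1a91b9_nuG.up (gB μ) M} := by
      refine (Ideal.map_mono hm).trans ?_
      rw [Ideal.map_span, Set.image_singleton]
      have h : algebraMap (𝓞 N) (𝓞 M) (MP_1a91b9_nuG.up (gB μ) N) =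
          MP_1a91b9_nuG.up (gB μ) M := MP_1a91b9_nuT3.S8.algebraMap_tower (F := N) (F' := M) (gB μ)
      rw [h]
    have h3 := art_spec (exists_art hT hm v.asIdeal v.ne_bot h1)
    have h4 := art_spec (exists_art hT' hmM w.1.asIdeal w.1.ne_bot h2)
    have h5 := ga_pow h3 (w.1.asIdeal.inertiaDeg (𝓞 N))
    have h6 : ga (art N T v.asIdeal ^ w.1.asIdeal.inertiaDeg (𝓞 N)) T =
        ga (toFH N M L (art M T w.1.asIdeal)) T := by
      rw [h5, ← AN.psi_over v w, ga_toFH, h4]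
    have h7 : art N T v.asIdeal ^ w.1.asIdeal.inertiaDeg (𝓞 N) =
        toFH N M L (art M T w.1.asIdeal) := hT.uniq h6
    rw [MonoidHom.comp_apply, ← h7, map_pow, Units.val_pow_eq_pow_val]

/-- a character which is trivial on the Galois group of `L / M` -/
theorem cT_triv {θ : Gal(L/N) →* ℂˣ} (h : ∀ σ : Gal(L/M), θ (toFH N M L σ) = 1)
    (m : Ideal (𝓞 M)) : cT M T m (θ.comp (toFH N M L)) = indC m := by
  funext I
  by_cases hI : IsCoprime I m
  · rw [cT_of hI, indC_of hI, MonoidHom.comp_apply, h, Units.val_one]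
  · rw [cT_of_not hI, indC_of_not hI]

end

end Pool.Agent.Lib.MP_1a91b9_nuX.TC
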