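import Pool.Agent.Lib.MP_1a91b9_nuX.GL.InrA
import Pool.Agent.Lib.MP_1a91b9_nuX.GL.ConjA

/-!
# The automorphisms of the curve are the multiplications by the units; the cocycle of a form
-/

set_option autoImplicit false

namespace Pool.Agent.Lib.MP_1a91b9_nuX.TC

open NumberField IsDedekindDomain WeierstrassCurve Pool.Agent.Lib.MP_1a91b9_nuT
open Pool.Agent.Lib.MP_1a91b9_nuX.DB Pool.Agent.Lib.MP_1a91b9_nuX.GL

variable [CD]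

private theorem uni_mem {ρ : ℂ} (h0 : ρ ≠ 0) (hA : ρ ^ 4 * cA ℂ = cA ℂ)
    (hB : ρ ^ 6 * cB ℂ = cB ℂ) :
    (∀ l ∈ PP.lattice, ρ * l ∈ PP.lattice) ∧ (∀ l ∈ PP.lattice, ρ⁻¹ * l ∈ PP.lattice) := by
  have h4 := pow_ne_zero 4 h0
  have h6 := pow_ne_zero 6 h0
  refine ⟨fun l hl => Per.stable_unit Per.CR.base h0 ?_ ?_ l hl,
    fun l hl => Per.stable_unit Per.CR.base (inv_ne_zero h0) ?_ ?_ l hl⟩
  · linear_combination (Om ^ 4) * hA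
  · linear_combination (Om ^ 6) * hB
  · rw [inv_pow, ← div_eq_mul_inv, div_eq_iff h4]
    linear_combination (-(Om ^ 4)) * hA
  · rw [inv_pow, ← div_eq_mul_inv, div_eq_iff h6]
    linear_combination (-(Om ^ 6)) * hB

private theorem uni_XY {ρ : ℂ} (h0 : ρ ≠ 0) (hA : ρ ^ 4 * cA ℂ = cA ℂ)
    (hB : ρ ^ 6 * cB ℂ = cB ℂ) (z : ℂ) :
    S3.X (ρ⁻¹ * z) = ρ ^ 2 * S3.X z ∧ S3.Y (ρ⁻¹ * z) = ρ ^ 3 * S3.Y z := by
  obtain ⟨hm1, hm2⟩ := uni_mem h0 hA hB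
  have hm3 : ∀ l ∈ PP.lattice, (ρ⁻¹)⁻¹ * l ∈ PP.lattice := by
    intro l hl
    rw [inv_inv]
    exact hm1 l hl
  constructor
  · rw [S3.X, S3.X, Per.P_unit hm2 hm3 (inv_ne_zero h0), inv_pow, div_inv_eq_mul]
    ring
  · rw [S3.Y, S3.Y, Per.Q_unit hm2 hm3 (inv_ne_zero h0), inv_pow, div_inv_eq_mul]
    ring

private theorem uni_unit {ρ : ℂ} (h0 : ρ ≠ 0) (hA : ρ ^ 4 * cA ℂ = cA ℂ)
    (hB : ρ ^ 6 * cB ℂ = cB ℂ) : ∃ ε : (𝓞 K)ˣ, embK ((ε : 𝓞 K) : K) = ρ⁻¹ := by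
  obtain ⟨hm1, hm2⟩ := uni_mem h0 hA hB
  have h1 : (1 : ℂ) ∈ PP.lattice := S3.mem_PP_iff.2 ⟨1, map_one embK⟩
  obtain ⟨a, ha⟩ := S3.mem_PP_iff.1 (hm1 1 h1)
  obtain ⟨b, hb⟩ := S3.mem_PP_iff.1 (hm2 1 h1)
  rw [mul_one] at ha hb
  have hab : b * a = 1 := by
    apply RingOfIntegers.ext
    apply embK.toRingHom.injective
    change embK ((b : K) * (a : K)) = embK 1
    rw [map_mul, ha, hb, inv_mul_cancel₀ h0, map_one]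
  exact ⟨⟨b, a, hab, by rw [mul_comm, hab]⟩, hb⟩

theorem unit_C [DecidableEq ℂ] {ρ : ℂ} (h0 : ρ ≠ 0) (hA : ρ ^ 4 * cA ℂ = cA ℂ)
    (hB : ρ ^ 6 * cB ℂ = cB ℂ) : ∃ ε : (𝓞 K)ˣ, embK ((ε : 𝓞 K) : K) = ρ⁻¹ ∧
    ∀ T T' : Pt ℂ, T ≠ 0 → T' ≠ 0 → xc T' = ρ ^ 2 * xc T → yc T' = ρ ^ 3 * yc T →
      T' = sm ℂ (ε : 𝓞 K) T := by
  obtain ⟨ε, hε⟩ := uni_unit h0 hA hB
  obtain ⟨hm1, hm2⟩ := uni_mem h0 hA hB
  refine ⟨ε, hε, fun T T' hT hT' hx hy => ?_⟩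
  obtain ⟨u, hu, hu0, huX, hus⟩ := exists_uni
  obtain ⟨z, rfl⟩ := hu T
  have hz : z ∉ PP.lattice := fun h => hT ((hu0 z).2 h)
  have hz2 : ρ⁻¹ * z ∉ PP.lattice := by
    intro h
    have h1 := hm1 _ h
    rw [mul_inv_cancel_left₀ h0] at h1
    exact hz h1
  have hne : u (ρ⁻¹ * z) ≠ 0 := fun h => hz2 ((hu0 _).1 h)
  rw [← hus, hε]
  obtain ⟨e1, e2⟩ := huX z hz
  obtain ⟨e3, e4⟩ := huX _ hz2
  obtain ⟨e5, e6⟩ := uni_XY h0 hA hB z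
  refine pt_ext hT' hne ?_ ?_
  · rw [hx, e1, e3, e5]
  · rw [hy, e2, e4, e6]
    ring

/-- an automorphism of the curve over the algebraic closure is the multiplication by a unit -/
theorem unit_Kb [DecidableEq Kb] {ρ : Kb} (h0 : ρ ≠ 0) (hA : ρ ^ 4 * cA Kb = cA Kb)
    (hB : ρ ^ 6 * cB Kb = cB Kb) : ∃ ε : (𝓞 K)ˣ, algebraMap K Kb ((ε : 𝓞 K) : K) = ρ⁻¹ ∧
    ∀ T T' : Pt Kb, T ≠ 0 → T' ≠ 0 → xc T' = ρ ^ 2 * xc T → yc T' = ρ ^ 3 * yc T →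
      T' = sm Kb (ε : 𝓞 K) T := by
  classical
  let f : Kb →ₐ[K] ℂ := IsAlgClosed.lift
  have hfi : Function.Injective f := f.toRingHom.injective
  have hA' : (f ρ) ^ 4 * cA ℂ = cA ℂ := by
    have h1 := congrArg f hA
    rwa [map_mul, map_pow, map_intCast] at h1
  have hB' : (f ρ) ^ 6 * cB ℂ = cB ℂ := by
    have h1 := congrArg f hB
    rwa [map_mul, map_pow, map_intCast] at h1
  have h0' : f ρ ≠ 0 := fun h => h0 (hfi (h.trans (map_zero f).symm))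
  have hne : ∀ {P : Pt Kb}, P ≠ 0 → pm f P ≠ 0 := fun {P} hP h =>
    hP (pm_inj f (h.trans (map_zero _).symm))
  obtain ⟨ε, hε, hεT⟩ := unit_C h0' hA' hB'
  refine ⟨ε, ?_, fun T T' hT hT' hx hy => ?_⟩
  · apply hfi
    rw [map_inv₀, ← hε]
    exact f.commutes _
  · apply pm_inj f
    rw [pm_sm]
    exact hεT _ _ (hne hT) (hne hT') (by rw [xc_pm, xc_pm, hx, map_mul, map_pow])
      (by rw [yc_pm, yc_pm, hy, map_mul, map_pow])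

end Pool.Agent.Lib.MP_1a91b9_nuX.TC
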